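import Mathlib

namespace Pool.Agent.Work.MP_84e666_co

/-- `Refines l r`: the parts of `l` can be split into blocks whose sums are the parts of `r`. -/
def Refines (l r : Multiset ℕ) : Prop :=
  ∃ B : Multiset (Multiset ℕ), B.sum = l ∧ B.map Multiset.sum = r

open Classical in
/-- `μ` is the Möbius function of the partitions of `n` under refinement. -/
def IsMobius {n : ℕ} (μ : n.Partition → n.Partition → ℤ) : Prop :=
  (∀ x, μ x x = 1) ∧ ∀ x y : n.Partition, Refines x.parts y.parts → x ≠ y →
    μ x y = -∑ z ∈ Finset.univ.filter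
      (fun z : n.Partition => Refines x.parts z.parts ∧ Refines z.parts y.parts ∧ z ≠ y), μ x z

/-- The parts that are at least 2. -/
def big (s : Multiset ℕ) : Multiset ℕ := s.filter (2 ≤ ·)

/-- `Leads s [v₁, …, v_k] t`: starting from `s`, merge a part `1` with a part `v₁`, then a part `1`
with a part `v₂`, and so on; the result is `t`. -/
def Leads : Multiset ℕ → List ℕ → Multiset ℕ → Prop
  | s, [], t => s = t
  | s, v :: w, t => ∃ u, s = 1 ::ₘ v ::ₘ u ∧ Leads ((v + 1) ::ₘ u) w t

/-- The number of falling words from `s` to `t`: consecutive letters `a, b` satisfy `a ≠ 1`,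
`b ≠ a` and `b ≤ a + 1`. -/
noncomputable def fall (s t : Multiset ℕ) : ℕ :=
  {w : List ℕ | w.IsChain (fun a b => a ≠ 1 ∧ b ≠ a ∧ b ≤ a + 1) ∧ Leads s w t}.ncard

/-- Fibonacci values for two parts `j ≤ k` growing to two parts `c ≤ d`. -/
def fibG (j k c d : ℕ) : ℕ :=
  if c = j ∧ d = k then 1
  else if c < j ∨ d < k then 0
  else if c < d then Nat.fib (max (c + 3 - (if j < k then k else k + 2)) 2)
  else Nat.fib (c + 1 - (if j < k then k else k + 2))

/-- The sum of `fibG j k c d` over `2 ≤ c ≤ d` with `c + d = e`. -/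
def fibH (j k e : ℕ) : ℕ := ∑ c ∈ Finset.Icc 2 (e / 2), fibG j k c (e - c)

end Pool.Agent.Work.MP_84e666_co
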