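import Pool.Agent.Work.MP_84e666_co.H45Marked

/-! A small interval with a Möbius value of the wrong sign, by a finite certificate. -/

namespace Pool.Agent.Work.MP_84e666_co

open Multiset

theorem refines_cons_left {a : ℕ} {l r : Multiset ℕ} :
    Refines (a ::ₘ l) r ↔ ∃ b r', r = b ::ₘ r' ∧ a ≤ b ∧ Refines l ((b - a) ::ₘ r') := by
  constructor
  · rintro ⟨B, h, rfl⟩
    obtain ⟨s, hs, ha⟩ : ∃ s ∈ B, a ∈ s := by
      have : a ∈ B.sum := h ▸ mem_cons_self a l
      exact mem_join.1 this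
    obtain ⟨B, rfl⟩ := exists_cons_of_mem hs
    obtain ⟨s, rfl⟩ := exists_cons_of_mem ha
    rw [sum_cons, cons_add, cons_inj_right] at h
    exact ⟨(a ::ₘ s).sum, B.map sum, map_cons _ _ _, by simp, s ::ₘ B, by simpa using h, by simp⟩
  · rintro ⟨b, r', rfl, hab, h⟩
    obtain ⟨a1, a2, rfl, e, h2⟩ := refines_cons.1 h
    exact refines_cons.2 ⟨a ::ₘ a1, a2, by simp, by rw [sum_cons]; omega, h2⟩

/-- Remove `a` from one entry. -/
def sub1 (a : ℕ) : List ℕ → List (List ℕ)
  | [] => []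
  | b :: r => (if a ≤ b then [(b - a) :: r] else []) ++ (sub1 a r).map (b :: ·)

/-- A decision procedure for refinement. -/
def fits : List ℕ → List ℕ → Bool
  | [], r => r.all (· == 0)
  | a :: l, r => (sub1 a r).any (fits l)

theorem sub1_sound {a : ℕ} : ∀ {r s : List ℕ}, s ∈ sub1 a r →
    ∃ b r', (r : Multiset ℕ) = b ::ₘ r' ∧ a ≤ b ∧ (s : Multiset ℕ) = (b - a) ::ₘ r'
  | [], _, h => by simp [sub1] at h
  | c :: r, s, h => by
    simp only [sub1, List.mem_append, List.mem_map] at h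
    rcases h with h | ⟨s', h, rfl⟩
    · split_ifs at h with hac
      · exact ⟨c, r, rfl, hac, by rw [List.mem_singleton.1 h]; rfl⟩
      · simp at h
    · obtain ⟨b, r', e1, hb, e2⟩ := sub1_sound h
      exact ⟨b, c ::ₘ r', by rw [← cons_coe, e1, cons_swap], hb, by rw [← cons_coe, e2, cons_swap]⟩

theorem sub1_complete {a b : ℕ} (hab : a ≤ b) : ∀ {r : List ℕ} {r' : Multiset ℕ},
    (r : Multiset ℕ) = b ::ₘ r' → ∃ s ∈ sub1 a r, (s : Multiset ℕ) = (b - a) ::ₘ r'
  | [], _, h => absurd h.symm cons_ne_zero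
  | c :: r, r', h => by
    rw [← cons_coe, cons_eq_cons] at h
    rcases h with ⟨rfl, rfl⟩ | ⟨-, u, e1, rfl⟩
    · exact ⟨(c - a) :: r, by simp [sub1, hab], rfl⟩
    · obtain ⟨s, hs, e⟩ := sub1_complete hab e1
      exact ⟨c :: s, by simp [sub1, hs], by rw [← cons_coe, e, cons_swap]⟩

theorem fits_iff : ∀ l r : List ℕ, fits l r = true ↔ Refines l r
  | [], r => by
    simp only [fits, List.all_eq_true, beq_iff_eq, coe_nil]
    induction r with
    | nil => simpa using Refines.refl 0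
    | cons b r ih =>
      rw [List.forall_mem_cons, ih, ← cons_coe, refines_cons]
      constructor
      · rintro ⟨rfl, h⟩
        exact ⟨0, 0, rfl, rfl, h⟩
      · rintro ⟨a1, a2, e, rfl, h⟩
        obtain ⟨rfl, rfl⟩ := add_eq_zero.1 e.symm
        exact ⟨rfl, h⟩
  | a :: l, r => by
    rw [fits, List.any_eq_true, ← cons_coe, refines_cons_left]
    constructor
    · rintro ⟨s, hs, h⟩
      obtain ⟨b, r', e1, hb, e2⟩ := sub1_sound hs
      exact ⟨b, r', e1, hb, e2 ▸ (fits_iff l s).1 h⟩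
    · rintro ⟨b, r', e1, hb, h⟩
      obtain ⟨s, hs, e⟩ := sub1_complete hb e1
      exact ⟨s, hs, (fits_iff l s).2 (e ▸ h)⟩

/-- Add `a` to one entry, or as a new entry. -/
def add1 (a : ℕ) : List ℕ → List (List ℕ)
  | [] => [[a]]
  | b :: r => ((a + b) :: r) :: (add1 a r).map (b :: ·)

/-- All coarsenings. -/
def coarse : List ℕ → List (List ℕ)
  | [] => [[]]
  | a :: l => (coarse l).flatMap (add1 a)

theorem add1_new (a : ℕ) : ∀ r : List ℕ, ∃ s ∈ add1 a r, (s : Multiset ℕ) = a ::ₘ r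
  | [] => ⟨[a], by simp [add1], rfl⟩
  | c :: r => by
    obtain ⟨s, hs, e⟩ := add1_new a r
    exact ⟨c :: s, by simp [add1, hs], by rw [← cons_coe, e, cons_swap, cons_coe]⟩

theorem add1_old (a b : ℕ) : ∀ {r : List ℕ} {r' : Multiset ℕ},
    (r : Multiset ℕ) = b ::ₘ r' → ∃ s ∈ add1 a r, (s : Multiset ℕ) = (a + b) ::ₘ r'
  | [], _, h => absurd h.symm cons_ne_zero
  | c :: r, r', h => by
    rw [← cons_coe, cons_eq_cons] at h
    rcases h with ⟨rfl, rfl⟩ | ⟨-, u, e1, rfl⟩
    · exact ⟨(a + c) :: r, by simp [add1], rfl⟩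
    · obtain ⟨s, hs, e⟩ := add1_old a b e1
      exact ⟨c :: s, by simp [add1, hs], by rw [← cons_coe, e, cons_swap]⟩

theorem coarse_complete : ∀ (l : List ℕ) (z : Multiset ℕ), (∀ x ∈ l, 0 < x) → (∀ x ∈ z, 0 < x) →
    Refines l z → ∃ s ∈ coarse l, (s : Multiset ℕ) = z
  | [], z, _, hz, h => ⟨[], by simp [coarse], ((h.card_le hz).2 (by simp))⟩
  | a :: l, z, hl, hz, h => by
    rw [← cons_coe, refines_cons_left] at h
    obtain ⟨b, r', rfl, hb, h⟩ := h
    have hl' : ∀ x ∈ l, 0 < x := fun x hx => hl x (List.mem_cons_of_mem _ hx)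
    have hr : ∀ x ∈ r', 0 < x := fun x hx => hz x (mem_cons_of_mem hx)
    simp only [coarse, List.mem_flatMap]
    rcases hb.eq_or_lt with rfl | hb
    · rw [Nat.sub_self, refines_zero_cons fun x hx => hl' x hx] at h
      obtain ⟨s, hs, rfl⟩ := coarse_complete l r' hl' hr h
      obtain ⟨s', hs', e⟩ := add1_new a s
      exact ⟨s', ⟨s, hs, hs'⟩, e⟩
    · obtain ⟨s, hs, e⟩ := coarse_complete l _ hl' (forall_mem_cons.2 ⟨by omega, hr⟩) h
      obtain ⟨s', hs', e'⟩ := add1_old a _ e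
      exact ⟨s', ⟨s, hs, hs'⟩, by rw [e', Nat.add_sub_cancel' hb.le]⟩

/-- The total weight of the entries of a table that pass a test. -/
def wsum (Z : List (List ℕ × ℤ)) (p : List ℕ → Bool) : ℤ :=
  ((Z.filter fun q => p q.1).map Prod.snd).sum

open Classical in
theorem sum_wsum {n : ℕ} (x r : n.Partition) (xl : List ℕ) (hx : x.parts = xl)
    (Z : List (List ℕ × ℤ)) (h : ∀ q ∈ Z, (∀ a ∈ q.1, 0 < a) ∧ Refines q.1 r.parts) :
    ∑ z ∈ Finset.univ.filter (fun z : n.Partition =>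
      Refines x.parts z.parts ∧ Refines z.parts r.parts),
      wsum Z (fun s => decide ((s : Multiset ℕ) = z.parts)) = wsum Z (fits xl) := by
  induction Z with
  | nil => simp [wsum]
  | cons q Z ih =>
    have e : ∀ p, wsum (q :: Z) p = (if p q.1 = true then q.2 else 0) + wsum Z p := fun p => by
      unfold wsum
      rw [List.filter_cons]
      split_ifs <;> simp
    obtain ⟨h1, h2⟩ := h q List.mem_cons_self
    let z₀ : n.Partition := ⟨q.1, fun {a} ha => h1 a ha, h2.sum_eq.trans r.parts_sum⟩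
    simp only [e, Finset.sum_add_distrib, ih fun q hq => h q (List.mem_cons_of_mem _ hq),
      decide_eq_true_eq, add_left_inj]
    have : ∀ z : n.Partition, ((q.1 : Multiset ℕ) = z.parts) = (z₀ = z) := fun z =>
      propext ⟨fun e => parts_inj e, fun e => e ▸ rfl⟩
    simp only [this, Finset.sum_ite_eq, Finset.mem_filter, Finset.mem_univ, true_and, fits_iff, hx]
    exact if_congr (and_iff_left h2) rfl rfl

theorem mu_cert {n : ℕ} {μ : n.Partition → n.Partition → ℤ} (hμ : IsMobius μ) (r : n.Partition)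
    (rl y : List ℕ) (hr : r.parts = rl) (Z : List (List ℕ × ℤ)) (hy : ∀ a ∈ y, 0 < a)
    (h1 : ((coarse y).all fun z => !fits z rl || Z.any fun q => q.1.isPerm z) = true)
    (h2 : ∀ q ∈ Z, (∀ a ∈ q.1, 0 < a) ∧ fits q.1 rl = true ∧
      wsum Z (fits q.1) = if q.1.Perm rl then 1 else 0) (x : n.Partition) :
    Refines y x.parts → Refines x.parts r.parts →
      μ x r = wsum Z fun s => decide ((s : Multiset ℕ) = x.parts) := by
  classical
  induction hN : card x.parts using Nat.strong_induction_on generalizing x with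
  | _ N ih =>
  intro hx hxr
  obtain ⟨s, hs, e⟩ := coarse_complete y _ hy (fun a ha => x.parts_pos ha) hx
  obtain ⟨q, hq, hqs⟩ : ∃ q ∈ Z, q.1.Perm s := by
    simpa [(fits_iff s rl).2 (by rwa [e, ← hr]), List.isPerm_iff] using List.all_eq_true.1 h1 s hs
  have e' : x.parts = q.1 := by rw [← e, coe_eq_coe.2 hqs]
  have k1 := sum_wsum x r q.1 e' Z fun q hq => ⟨(h2 q hq).1, hr ▸ (fits_iff _ _).1 (h2 q hq).2.1⟩
  have k2 : (if q.1.Perm rl then (1 : ℤ) else 0) = if x = r then 1 else 0 :=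
    if_congr (by rw [← coe_eq_coe, ← e', ← hr]; exact parts_inj.eq_iff) rfl rfl
  rw [(h2 q hq).2.2, k2, ← upper hμ x r] at k1
  have hm : x ∈ Finset.univ.filter (fun z : n.Partition =>
      Refines x.parts z.parts ∧ Refines z.parts r.parts) := by
    simpa using ⟨Refines.refl _, hxr⟩
  rw [← Finset.add_sum_erase _ _ hm, ← Finset.add_sum_erase _ _ hm,
    Finset.sum_congr rfl (g := fun z => μ z r), add_left_inj] at k1
  · exact k1.symm
  · intro z hz
    simp only [Finset.mem_erase, Finset.mem_filter, Finset.mem_univ, true_and] at hz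
    have := hz.2.1.card_le fun a ha => z.parts_pos ha
    refine (ih _ (lt_of_le_of_ne (hN ▸ this.1) fun e => hz.1 (parts_inj (this.2 ?_).symm)) z rfl
      (hx.trans hz.2.1) hz.2.2).symm
    omega

/-- The table of values `μ(z, {22, 19, 18, 17})`. -/
def table : List (List ℕ × ℤ) :=
  [([22, 19, 18, 17], 1), ([19, 18, 17, 11, 11], -1), ([19, 18, 17, 12, 10], -1),
   ([22, 18, 17, 11, 8], -1), ([22, 18, 17, 12, 7], -1), ([22, 19, 17, 10, 8], -1),
   ([22, 19, 17, 11, 7], -1), ([22, 19, 17, 12, 6], -1), ([22, 19, 18, 10, 7], -1),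
   ([22, 19, 18, 11, 6], -1), ([18, 17, 11, 11, 11, 8], 1), ([18, 17, 12, 11, 10, 8], 1),
   ([18, 17, 12, 11, 11, 7], 1), ([19, 17, 11, 11, 10, 8], 1), ([19, 17, 11, 11, 11, 7], 1),
   ([19, 17, 12, 11, 10, 7], 1), ([19, 17, 12, 11, 11, 6], 1), ([19, 18, 11, 11, 10, 7], 1),
   ([19, 18, 11, 11, 11, 6], 1), ([19, 18, 12, 11, 10, 6], 1), ([22, 17, 11, 11, 8, 7], 1),
   ([22, 17, 12, 10, 8, 7], 1), ([22, 17, 12, 11, 8, 6], 1), ([22, 18, 11, 10, 8, 7], 1),
   ([22, 18, 11, 11, 8, 6], 1), ([22, 18, 12, 11, 7, 6], 1), ([22, 19, 11, 10, 8, 6], 1),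
   ([22, 19, 11, 11, 7, 6], 1), ([22, 19, 12, 10, 7, 6], 1), ([17, 11, 11, 11, 11, 8, 7], -1),
   ([17, 12, 11, 11, 10, 8, 7], -1), ([17, 12, 11, 11, 11, 8, 6], -1),
   ([18, 11, 11, 11, 10, 8, 7], -1), ([18, 11, 11, 11, 11, 8, 6], -1),
   ([18, 12, 11, 11, 10, 8, 6], -1), ([18, 12, 11, 11, 11, 7, 6], -1),
   ([19, 11, 11, 11, 10, 8, 6], -1), ([19, 11, 11, 11, 11, 7, 6], -1),
   ([19, 12, 11, 11, 10, 7, 6], -1), ([22, 11, 11, 11, 8, 7, 6], -1),
   ([22, 12, 11, 10, 8, 7, 6], -1), ([11, 11, 11, 11, 11, 8, 7, 6], 1),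
   ([12, 11, 11, 11, 10, 8, 7, 6], -1)]

theorem table_ok : ∀ q ∈ table, (∀ a ∈ q.1, 0 < a) ∧ fits q.1 [22, 19, 18, 17] = true ∧
    wsum table (fits q.1) = if q.1.Perm [22, 19, 18, 17] then 1 else 0 := by
  decide +kernel

/-- The top of the small interval. -/
def top76 : Nat.Partition 76 := ⟨([22, 19, 18, 17] : List ℕ), by simp, rfl⟩

/-- The bottom with Möbius value `1`. -/
def botP : Nat.Partition 76 := ⟨([11, 11, 11, 11, 11, 8, 7, 6] : List ℕ), by simp, rfl⟩

/-- The bottom with Möbius value `-1`. -/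
def botN : Nat.Partition 76 := ⟨([12, 11, 11, 11, 10, 8, 7, 6] : List ℕ), by simp, rfl⟩

theorem botP_le : Refines botP.parts top76.parts := (fits_iff _ _).1 (by decide +kernel)

theorem botN_le : Refines botN.parts top76.parts := (fits_iff _ _).1 (by decide +kernel)

/-- The coarsenings with bounded entries. -/
private def coarseB (B : ℕ) : List ℕ → List (List ℕ)
  | [] => [[]]
  | a :: l => ((coarseB B l).flatMap (add1 a)).filter fun z => z.all fun x => Nat.ble x B

private theorem add1_le {B a : ℕ} : ∀ {r z : List ℕ}, z ∈ add1 a r → (∀ x ∈ z, x ≤ B) →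
    ∀ x ∈ r, x ≤ B
  | [], _, _, _ => by simp
  | b :: r, z, hz, h => by
    rw [add1, List.mem_cons, List.mem_map] at hz
    rcases hz with rfl | ⟨s, hs, rfl⟩
    · rw [List.forall_mem_cons] at h ⊢
      exact ⟨by omega, h.2⟩
    · rw [List.forall_mem_cons] at h ⊢
      exact ⟨h.1, add1_le hs h.2⟩

private theorem mem_coarseB {B : ℕ} : ∀ {l z : List ℕ}, z ∈ coarse l → (∀ x ∈ z, x ≤ B) →
    z ∈ coarseB B l
  | [], _, hz, _ => hz
  | a :: l, z, hz, h => by
    rw [coarse, List.mem_flatMap] at hz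
    obtain ⟨r, hr, hz⟩ := hz
    rw [coarseB, List.mem_filter, List.mem_flatMap]
    exact ⟨⟨r, mem_coarseB hr (add1_le hz h), hz⟩,
      List.all_eq_true.2 fun x hx => Nat.ble_eq.mpr (h x hx)⟩

private theorem coarse_all (y : List ℕ) (Z : List (List ℕ × ℤ))
    (h : ((coarseB 22 y).all fun z => !fits z [22, 19, 18, 17] || Z.any fun q => q.1.isPerm z) =
      true) :
    ((coarse y).all fun z => !fits z [22, 19, 18, 17] || Z.any fun q => q.1.isPerm z) = true := by
  refine List.all_eq_true.2 fun z hz => ?_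
  by_cases hf : fits z [22, 19, 18, 17] = true
  · refine List.all_eq_true.1 h z (mem_coarseB hz fun x hx => ?_)
    obtain ⟨B, hB, e⟩ := (fits_iff _ _).1 hf
    have hx' : x ∈ B.sum := hB ▸ mem_coe.2 hx
    rw [← Multiset.join, mem_join] at hx'
    obtain ⟨b, hb, hxb⟩ := hx'
    have h1 : b.sum ∈ (([22, 19, 18, 17] : List ℕ) : Multiset ℕ) := e ▸ mem_map_of_mem _ hb
    have h2 := Multiset.le_sum_of_mem hxb
    simp only [mem_coe, List.mem_cons, List.not_mem_nil, or_false] at h1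
    omega
  · simp [hf]

theorem mu_botP {μ : Nat.Partition 76 → Nat.Partition 76 → ℤ} (hμ : IsMobius μ) :
    μ botP top76 = 1 :=
  (mu_cert hμ top76 _ [11, 11, 11, 11, 11, 8, 7, 6].reverse rfl table (by simp)
    (coarse_all _ _ (by decide +kernel)) table_ok botP
    (coe_reverse _ ▸ Refines.refl _) botP_le).trans (by decide +kernel)

theorem mu_botN {μ : Nat.Partition 76 → Nat.Partition 76 → ℤ} (hμ : IsMobius μ) :
    μ botN top76 = -1 :=
  (mu_cert hμ top76 _ [12, 11, 11, 11, 10, 8, 7, 6].reverse rfl table (by simp)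
    (coarse_all _ _ (by decide +kernel)) table_ok botN
    (coe_reverse _ ▸ Refines.refl _) botN_le).trans (by decide +kernel)

end Pool.Agent.Work.MP_84e666_co
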