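import Pool.Agent.Work.MP_84e666_co.Defs

-- merged part: Pool.Agent.Work.MP_84e666_co.Order
section
/-! Basic facts on the refinement order, and tight refinements. -/

namespace Pool.Agent.Work.MP_84e666_co

open Multiset

theorem refines_zero {a : Multiset ℕ} : Refines a 0 ↔ a = 0 := by
  constructor
  · rintro ⟨B, rfl, h⟩
    rw [map_eq_zero] at h
    simp [h]
  · rintro rfl
    exact ⟨0, rfl, rfl⟩

theorem refines_cons {a b : Multiset ℕ} {x : ℕ} :
    Refines a (x ::ₘ b) ↔ ∃ a1 a2, a = a1 + a2 ∧ a1.sum = x ∧ Refines a2 b := by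
  classical
  constructor
  · rintro ⟨B, rfl, h⟩
    obtain ⟨a1, h1, h2, h3⟩ := (map_eq_cons _ _ _ _).2 h
    exact ⟨a1, (B.erase a1).sum, by rw [← sum_cons, cons_erase h1], h2, _, rfl, h3⟩
  · rintro ⟨a1, a2, rfl, rfl, B, rfl, rfl⟩
    exact ⟨a1 ::ₘ B, by simp, by simp⟩

theorem Refines.add {a b c d : Multiset ℕ} (h : Refines a b) (h' : Refines c d) :
    Refines (a + c) (b + d) := by
  obtain ⟨B, rfl, rfl⟩ := h
  obtain ⟨C, rfl, rfl⟩ := h'
  exact ⟨B + C, by simp, by simp⟩

theorem refines_single (a : Multiset ℕ) : Refines a {a.sum} := ⟨{a}, by simp, by simp⟩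

theorem Refines.refl (a : Multiset ℕ) : Refines a a := by
  induction a using Multiset.induction_on with
  | empty => exact refines_zero.2 rfl
  | cons x a ih => exact refines_cons.2 ⟨{x}, a, by simp, by simp, ih⟩

theorem Refines.sum_eq {a b : Multiset ℕ} (h : Refines a b) : a.sum = b.sum := by
  induction b using Multiset.induction_on generalizing a with
  | empty => rw [refines_zero.1 h]
  | cons x b ih =>
    obtain ⟨a1, a2, rfl, rfl, h'⟩ := refines_cons.1 h
    simp [ih h']

theorem refines_add {a b c : Multiset ℕ} (h : Refines a (b + c)) :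
    ∃ a1 a2, a = a1 + a2 ∧ Refines a1 b ∧ Refines a2 c := by
  induction b using Multiset.induction_on generalizing a with
  | empty => exact ⟨0, a, by simp, refines_zero.2 rfl, by simpa using h⟩
  | cons x b ih =>
    rw [cons_add] at h
    obtain ⟨a1, a2, rfl, rfl, h'⟩ := refines_cons.1 h
    obtain ⟨a3, a4, rfl, h3, h4⟩ := ih h'
    exact ⟨a1 + a3, a4, by rw [add_assoc], refines_cons.2 ⟨a1, a3, rfl, rfl, h3⟩, h4⟩

theorem Refines.trans {a b c : Multiset ℕ} (h : Refines a b) (h' : Refines b c) : Refines a c := by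
  induction c using Multiset.induction_on generalizing a b with
  | empty =>
    rw [refines_zero] at h'
    subst h'
    exact h
  | cons x c ih =>
    obtain ⟨b1, b2, rfl, rfl, h2⟩ := refines_cons.1 h'
    obtain ⟨a1, a2, rfl, h3, h4⟩ := refines_add h
    exact refines_cons.2 ⟨a1, a2, rfl, h3.sum_eq, ih h4 h2⟩

theorem Refines.card_le {a b : Multiset ℕ} (h : Refines a b) (hb : ∀ x ∈ b, 0 < x) :
    card b ≤ card a ∧ (card a ≤ card b → a = b) := by
  induction b using Multiset.induction_on generalizing a with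
  | empty => simp [refines_zero.1 h]
  | cons x b ih =>
    obtain ⟨a1, a2, rfl, rfl, h'⟩ := refines_cons.1 h
    obtain ⟨h1, h2⟩ := ih h' fun y hy => hb y (mem_cons_of_mem hy)
    have h3 : 0 < card a1 := by
      rw [card_pos]
      rintro rfl
      simpa using hb _ (mem_cons_self _ _)
    simp only [card_add, card_cons]
    refine ⟨by omega, fun h4 => ?_⟩
    obtain ⟨y, rfl⟩ := card_eq_one.1 (show card a1 = 1 by omega)
    rw [h2 (by simp at h4; omega)]
    simp

theorem Refines.potential {a b : Multiset ℕ} (h : Refines a b) (f : ℕ → ℕ) (f0 : f 0 = 0)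
    (hf : ∀ x y, f x + f y ≤ f (x + y)) : (a.map f).sum ≤ (b.map f).sum := by
  have one : ∀ a : Multiset ℕ, (a.map f).sum ≤ f a.sum := by
    intro a
    induction a using Multiset.induction_on with
    | empty => simp [f0]
    | cons x a ih =>
      simp only [map_cons, sum_cons]
      exact le_trans (by omega) (hf x a.sum)
  induction b using Multiset.induction_on generalizing a with
  | empty => simp [refines_zero.1 h]
  | cons x b ih =>
    obtain ⟨a1, a2, rfl, rfl, h'⟩ := refines_cons.1 h
    have := one a1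
    have := ih h'
    simp only [map_add, sum_add, map_cons, sum_cons]
    omega

/-- A refinement in which no block contains two parts `1`, for every choice of blocks. -/
def Tight (s t : Multiset ℕ) : Prop :=
  Refines s t ∧ ¬ ∃ u, s = 1 ::ₘ 1 ::ₘ u ∧ Refines (2 ::ₘ u) t

/-- `t` arises from `s` by raising the parts in `G` by one. -/
def Raise (s G t : Multiset ℕ) : Prop :=
  ∃ u, s = G + replicate (card G) 1 + u ∧ t = G.map (· + 1) + u

theorem refines_raise (G u : Multiset ℕ) :
    Refines (G + replicate (card G) 1 + u) (G.map (· + 1) + u) := by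
  refine Refines.add ?_ (Refines.refl u)
  induction G using Multiset.induction_on with
  | empty => exact Refines.refl _
  | cons x G ih =>
    rw [map_cons]
    refine refines_cons.2 ⟨{x, 1}, _, ?_, by simp, ih⟩
    rw [card_cons, replicate_succ]
    simp only [insert_eq_cons, cons_add, add_cons, singleton_add]
    exact cons_swap _ _ _

@[simp] theorem big_add (a b : Multiset ℕ) : big (a + b) = big a + big b := filter_add _ _ _

theorem big_cons (x : ℕ) (a : Multiset ℕ) :
    big (x ::ₘ a) = if 2 ≤ x then x ::ₘ big a else big a := by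
  unfold big
  split_ifs with h
  · exact filter_cons_of_pos _ h
  · exact filter_cons_of_neg _ h

@[simp] theorem big_zero : big 0 = 0 := rfl

@[simp] theorem big_ones (k : ℕ) : big (replicate k 1) = 0 := by
  unfold big
  rw [filter_eq_nil]
  intro a ha
  rw [eq_of_mem_replicate ha]
  omega

theorem eq_big_add {a : Multiset ℕ} (ha : ∀ x ∈ a, 0 < x) :
    a = big a + replicate (count 1 a) 1 := by
  ext x
  unfold big
  rw [count_add, count_filter, count_replicate]
  split_ifs with h1 h2 h2
  · omega
  · rfl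
  · simp [h2]
  · have : x = 0 := by omega
    subst this
    simpa using fun h => absurd (ha 0 h) (by omega)

theorem Tight.struct {s t : Multiset ℕ} (h : Tight s t) (hs : ∀ x ∈ s, 0 < x)
    (ht : ∀ x ∈ t, 0 < x) : card (big t) ≤ card (big s) ∧ (card (big s) ≤ card (big t) →
      ∃ G, Raise s G t ∧ ∀ v ∈ G, 2 ≤ v) := by
  induction t using Multiset.induction_on generalizing s with
  | empty =>
    rw [refines_zero.1 h.1]
    exact ⟨le_rfl, fun _ => ⟨0, ⟨0, by simp, by simp⟩, by simp⟩⟩
  | cons x t ih =>
    obtain ⟨a1, a2, rfl, rfl, h1⟩ := refines_cons.1 h.1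
    have h2 : Tight a2 t := by
      refine ⟨h1, ?_⟩
      rintro ⟨u, rfl, hu⟩
      exact h.2 ⟨a1 + u, by simp, refines_cons.2 ⟨a1, 2 ::ₘ u, by simp, rfl, hu⟩⟩
    obtain ⟨h3, h4⟩ := ih h2 (fun x hx => hs x (mem_add.2 (Or.inr hx)))
      fun x hx => ht x (mem_cons_of_mem hx)
    have e1 := eq_big_add (a := a1) fun x hx => hs x (mem_add.2 (Or.inl hx))
    have h5 : count 1 a1 ≤ 1 := by
      by_contra hc
      obtain ⟨k, hk⟩ : ∃ k, count 1 a1 = k + 2 := ⟨count 1 a1 - 2, by omega⟩
      rw [hk, replicate_succ, replicate_succ] at e1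
      refine h.2 ⟨big a1 + replicate k 1 + a2, ?_, refines_cons.2
        ⟨2 ::ₘ (big a1 + replicate k 1), a2, by simp, ?_, h1⟩⟩
      · conv_lhs => rw [e1]
        simp
      · conv_rhs => rw [e1]
        simp
        omega
    have h6 := ht _ (mem_cons_self _ _)
    have e2 : a1.sum = (big a1).sum + count 1 a1 := by
      conv_lhs => rw [e1]
      simp
    rw [big_cons, big_add, card_add]
    split_ifs with h7
    · have h8 : 0 < card (big a1) := by
        rw [card_pos]
        intro e
        rw [e, sum_zero] at e2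
        omega
      rw [card_cons]
      refine ⟨by omega, fun h9 => ?_⟩
      obtain ⟨G, ⟨u, rfl, rfl⟩, hG⟩ := h4 (by omega)
      obtain ⟨v, hv⟩ := card_eq_one.1 (show card (big a1) = 1 by omega)
      have hv2 : 2 ≤ v := by
        have : v ∈ big a1 := by simp [hv]
        exact (mem_filter.1 this).2
      rw [hv] at e1 e2
      rw [sum_singleton] at e2
      by_cases h10 : count 1 a1 = 0
      · rw [h10] at e1 e2
        refine ⟨G, ⟨v ::ₘ u, ?_, ?_⟩, hG⟩
        · rw [e1]
          simp
        · rw [e2]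
          simp
      · have h11 : count 1 a1 = 1 := by omega
        rw [h11] at e1 e2
        refine ⟨v ::ₘ G, ⟨u, ?_, ?_⟩, ?_⟩
        · rw [e1, card_cons, replicate_one, replicate_succ]
          simp only [singleton_add, cons_add, add_cons]
          exact cons_swap _ _ _
        · rw [e2]
          simp
        · intro w hw
          rcases mem_cons.1 hw with rfl | hw
          · exact hv2
          · exact hG w hw
    · refine ⟨by omega, fun h9 => ?_⟩
      obtain ⟨G, ⟨u, rfl, rfl⟩, hG⟩ := h4 (by omega)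
      have h8 : big a1 = 0 := card_eq_zero.1 (by omega)
      rw [h8] at e1 e2
      rw [sum_zero] at e2
      have h11 : count 1 a1 = 1 := by omega
      rw [h11] at e1 e2
      refine ⟨G, ⟨1 ::ₘ u, ?_, ?_⟩, hG⟩
      · rw [e1]
        simp
      · rw [e2]
        simp

theorem Tight.nonadj {s G t : Multiset ℕ} (h : Tight s t) (hG : Raise s G t) {v : ℕ}
    (hv : v ∈ G) : v + 1 ∉ G := by
  intro hv'
  obtain ⟨u, rfl, rfl⟩ := hG
  obtain ⟨G1, rfl⟩ := exists_cons_of_mem hv
  obtain ⟨G2, rfl⟩ := exists_cons_of_mem ((mem_cons.1 hv').resolve_left (by omega))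
  refine h.2 ⟨v ::ₘ (v + 1) ::ₘ (G2 + replicate (card G2) 1 + u), ?_, ?_⟩
  · simp only [card_cons, replicate_succ, cons_add, add_cons]
  · simp only [map_cons, cons_add]
    refine refines_cons.2 ⟨{v + 1}, 2 ::ₘ v ::ₘ (G2 + replicate (card G2) 1 + u), ?_, by simp,
      refines_cons.2 ⟨{2, v}, _, by simp, by simp; omega, refines_raise G2 u⟩⟩
    simp only [singleton_add]
    rw [cons_swap v, cons_swap 2]

theorem Raise.tight {s G t : Multiset ℕ} (hG : Raise s G t) (h2 : ∀ v ∈ G, 2 ≤ v)
    (hn : ∀ v ∈ G, v + 1 ∉ G) : Tight s t := by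
  obtain ⟨u, rfl, rfl⟩ := hG
  refine ⟨refines_raise G u, ?_⟩
  rintro ⟨u', e, hu'⟩
  let g : ℕ → ℕ := fun x => Nat.rec 1 (fun y r => if y ∈ G then r else 2 * r) x
  have g1 : ∀ y, g (y + 1) = if y ∈ G then g y else 2 * g y := fun _ => rfl
  have gm : Monotone g := monotone_nat_of_le_succ fun y => by
    rw [g1]
    split_ifs <;> omega
  have g2 : ∀ y, 2 * g y ≤ g (y + 2) := by
    intro y
    rw [g1 (y + 1), g1 y]
    by_cases h : y ∈ G
    · rw [if_neg (hn y h), if_pos h]
    · rw [if_neg h]
      split_ifs <;> omega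
  have g0 : 0 < g 2 := lt_of_lt_of_le (show 0 < g 0 from Nat.one_pos) (gm (Nat.zero_le 2))
  obtain ⟨f, hf⟩ : ∃ f : ℕ → ℕ, ∀ x, f x = if 2 ≤ x then g x else 0 := ⟨_, fun _ => rfl⟩
  have key := hu'.potential f (by simp [hf]) (by
    intro x y
    simp only [hf]
    have a1 := gm (Nat.le_add_right x y)
    have a2 := gm (Nat.le_add_left y x)
    by_cases hx : 2 ≤ x <;> by_cases hy : 2 ≤ y
    · rw [if_pos hx, if_pos hy, if_pos (by omega)]
      rcases le_total x y with h | h
      · have := gm h
        have := g2 y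
        have := gm (show y + 2 ≤ x + y by omega)
        omega
      · have := gm h
        have := g2 x
        have := gm (show x + 2 ≤ x + y by omega)
        omega
    · rw [if_pos hx, if_neg hy, if_pos (by omega)]
      omega
    · rw [if_neg hx, if_pos hy, if_pos (by omega)]
      omega
    · rw [if_neg hx, if_neg hy]
      omega)
  have e1 := congrArg (fun m => (m.map f).sum) e
  have e2 : (G.map (· + 1)).map f = G.map f := by
    rw [map_map]
    refine map_congr rfl fun v hv => ?_
    have := h2 v hv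
    simp only [Function.comp, hf]
    rw [if_pos (by omega), if_pos this, g1, if_pos hv]
  have f1 : f 1 = 0 := by simp [hf]
  have f2 : f 2 = g 2 := by simp [hf]
  simp only [map_add, sum_add, map_cons, sum_cons, map_replicate, sum_replicate, e2, f1, f2,
    smul_eq_mul, mul_zero] at e1 key
  omega

theorem Raise.big_card {s G t : Multiset ℕ} (hG : Raise s G t) (h2 : ∀ v ∈ G, 2 ≤ v) :
    card (big s) = card (big t) := by
  obtain ⟨u, rfl, rfl⟩ := hG
  have e1 : big G = G := filter_eq_self.2 h2
  have e2 : big (G.map (· + 1)) = G.map (· + 1) := filter_eq_self.2 fun a ha => by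
    obtain ⟨v, hv, rfl⟩ := mem_map.1 ha
    have := h2 v hv
    omega
  simp [e1, e2]

theorem Raise.unique {s G G' t : Multiset ℕ} (h : Raise s G t) (h' : Raise s G' t) : G = G' := by
  obtain ⟨u, e1, e2⟩ := h
  obtain ⟨u', e3, e4⟩ := h'
  have c1 := congrArg card e1
  have c2 := congrArg card e2
  have c3 := congrArg card e3
  have c4 := congrArg card e4
  simp only [card_add, card_replicate, card_map] at c1 c2 c3 c4
  have c5 : card G' = card G := by omega
  rw [c5] at e3
  have inj : Function.Injective (· + 1 : ℕ → ℕ) := add_left_injective 1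
  ext x
  have k : ∀ x, count x G + count x u = count x G' + count x u' := by
    intro x
    have := congrArg (count x) (e1.symm.trans e3)
    simp only [count_add] at this
    omega
  induction x with
  | zero =>
    have := congrArg (count 0) (e2.symm.trans e4)
    simp only [count_add] at this
    rw [count_eq_zero_of_notMem (by simp), count_eq_zero_of_notMem (s := G'.map _) (by simp)] at this
    have := k 0
    omega
  | succ x ih =>
    have := congrArg (count (x + 1)) (e2.symm.trans e4)
    simp only [count_add] at this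
    rw [count_map_eq_count' _ _ inj, count_map_eq_count' _ _ inj] at this
    have := k (x + 1)
    omega

end Pool.Agent.Work.MP_84e666_co
end

-- merged part: Pool.Agent.Work.MP_84e666_co.Words
section
/-! Counting words that lead from one multiset to another, and the inversion identity. -/

namespace Pool.Agent.Work.MP_84e666_co

open Multiset

def raise (s : Multiset ℕ) (v : ℕ) : Multiset ℕ := (v + 1) ::ₘ (s.erase 1).erase v

def Legal (s : Multiset ℕ) (v : ℕ) : Prop := 1 ∈ s ∧ v ∈ s.erase 1

theorem leads_cons {s t : Multiset ℕ} {v : ℕ} {w : List ℕ} :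
    Leads s (v :: w) t ↔ Legal s v ∧ Leads (raise s v) w t := by
  constructor
  · rintro ⟨u, rfl, h⟩
    refine ⟨⟨by simp, by simp⟩, ?_⟩
    simpa [raise] using h
  · rintro ⟨⟨h1, h2⟩, h⟩
    exact ⟨_, by rw [cons_erase h2, cons_erase h1], h⟩

theorem Legal.card_raise {s : Multiset ℕ} {v : ℕ} (h : Legal s v) :
    card (raise s v) + 1 = card s := by
  have h1 := card_erase_add_one h.1
  have h2 := card_erase_add_one h.2
  simp only [raise, card_cons]
  omega

theorem Legal.mem {s : Multiset ℕ} {v : ℕ} (h : Legal s v) : v ∈ s := mem_of_mem_erase h.2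

theorem finite_leads (t : Multiset ℕ) (s : Multiset ℕ) : {w | Leads s w t}.Finite := by
  induction h : card s using Nat.strong_induction_on generalizing s with
  | _ k ih =>
    have : {w | Leads s w t} ⊆ {[]} ∪ ⋃ v ∈ {v | Legal s v}, List.cons v '' {w | Leads (raise s v) w t} := by
      intro w hw
      rcases w with _ | ⟨v, w⟩
      · simp
      · obtain ⟨h1, h2⟩ := leads_cons.1 hw
        exact Or.inr (Set.mem_biUnion h1 ⟨w, h2, rfl⟩)
    refine Set.Finite.subset (Set.Finite.union (Set.finite_singleton _) (Set.Finite.biUnion ?_ ?_)) this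
    · exact s.toFinset.finite_toSet.subset fun v hv => by simpa using Legal.mem hv
    · intro v hv
      exact (ih _ (by have := Legal.card_raise hv; omega) _ rfl).image _

/-- Words with letters at least 2, consecutive letters related by `R`, first letter in `p`. -/
noncomputable def cnt (R : ℕ → ℕ → Prop) (p : ℕ → Prop) (s t : Multiset ℕ) : ℕ :=
  {w : List ℕ | w.IsChain R ∧ (∀ v ∈ w.head?, p v) ∧ (∀ v ∈ w, 2 ≤ v) ∧ Leads s w t}.ncard

open Classical in
theorem cnt_rec (R : ℕ → ℕ → Prop) (p : ℕ → Prop) (s t : Multiset ℕ) :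
    cnt R p s t = (if s = t then 1 else 0) +
      ∑ v ∈ s.toFinset.filter (fun v => Legal s v ∧ 2 ≤ v ∧ p v), cnt R (R v) (raise s v) t := by
  have fin : ∀ (p : ℕ → Prop) (s : Multiset ℕ), {w : List ℕ | w.IsChain R ∧ (∀ v ∈ w.head?, p v) ∧ (∀ v ∈ w, 2 ≤ v) ∧
      Leads s w t}.Finite := fun p s => (finite_leads t s).subset fun w hw => hw.2.2.2
  unfold cnt
  simp only [Set.ncard_eq_toFinset_card _ (fin _ _)]
  have e : (fin p s).toFinset = (if s = t then {[]} else ∅) ∪
      (s.toFinset.filter (fun v => Legal s v ∧ 2 ≤ v ∧ p v)).biUnion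
        fun v => ((fin (R v) (raise s v)).toFinset).image (List.cons v) := by
    ext w
    simp only [Set.Finite.mem_toFinset, Set.mem_ofPred_eq, Finset.mem_union, Finset.mem_biUnion,
      Finset.mem_filter, mem_toFinset, Finset.mem_image]
    rcases w with _ | ⟨v, w⟩
    · by_cases h : s = t <;> simp [h, Leads]
    · rw [leads_cons, List.isChain_cons]
      constructor
      · rintro ⟨⟨h1, h2⟩, h3, h4, h5, h6⟩
        exact Or.inr ⟨v, ⟨h5.mem, h5, h4 v (by simp), h3 v (by simp)⟩, w,
          ⟨h2, h1, fun x hx => h4 x (by simp [hx]), h6⟩, rfl⟩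
      · rintro (h | ⟨v', ⟨-, h1, h2, h3⟩, w', ⟨h4, h5, h6, h7⟩, e⟩)
        · split_ifs at h <;> simp at h
        · obtain ⟨rfl, rfl⟩ := List.cons.inj e
          refine ⟨⟨h5, h4⟩, by simpa using h3, ?_, h1, h7⟩
          intro x hx
          rcases List.mem_cons.1 hx with rfl | hx
          · exact h2
          · exact h6 x hx
  rw [e, Finset.card_union_of_disjoint, Finset.card_biUnion]
  · congr 1
    · split_ifs <;> simp
    · exact Finset.sum_congr rfl fun v _ => Finset.card_image_of_injective _ List.cons_injective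
  · intro v _ v' _ hne
    rw [Function.onFun, Finset.disjoint_left]
    intro w h1 h2
    obtain ⟨w1, -, rfl⟩ := Finset.mem_image.1 h1
    obtain ⟨w2, -, e⟩ := Finset.mem_image.1 h2
    exact hne (List.cons.inj e).1.symm
  · rw [Finset.disjoint_left]
    intro w h1 h2
    obtain ⟨v, -, h3⟩ := Finset.mem_biUnion.1 h2
    obtain ⟨w1, -, rfl⟩ := Finset.mem_image.1 h3
    split_ifs at h1 <;> simp at h1

open Classical in
theorem inversion (R : ℕ → ℕ → Prop) (P : Finset (Multiset ℕ))
    (hP : ∀ s ∈ P, ∀ v, Legal s v → raise s v ∈ P) (t : Multiset ℕ) (s : Multiset ℕ) :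
    s ∈ P → ∀ p : ℕ → Prop,
      ∑ x ∈ P, (-1 : ℤ) ^ (card s + card x) * cnt (fun a b => ¬ R a b) p s x * cnt R (fun _ => True) x t =
        cnt R (fun v => ¬ p v) s t := by
  induction h : card s using Nat.strong_induction_on generalizing s with
  | _ k ih =>
    intro hs p
    subst h
    have e1 : ∀ x ∈ P, (-1 : ℤ) ^ (card s + card x) * cnt (fun a b => ¬ R a b) p s x *
        cnt R (fun _ => True) x t = (if s = x then (cnt R (fun _ => True) x t : ℤ) else 0) -
        ∑ v ∈ s.toFinset.filter (fun v => Legal s v ∧ 2 ≤ v ∧ p v),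
          (-1 : ℤ) ^ (card (raise s v) + card x) * cnt (fun a b => ¬ R a b) (fun b => ¬ R v b) (raise s v) x *
            cnt R (fun _ => True) x t := by
      intro x _
      rw [cnt_rec (fun a b => ¬ R a b) p s x]
      push_cast
      rw [mul_add, add_mul, Finset.mul_sum, Finset.sum_mul, sub_eq_add_neg, ← Finset.sum_neg_distrib]
      congr 1
      · split_ifs with h
        · subst h
          rw [← two_mul, pow_mul]
          simp
        · simp
      · refine Finset.sum_congr rfl fun v hv => ?_
        rw [← (Finset.mem_filter.1 hv).2.1.card_raise, add_right_comm, pow_succ]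
        simp only [mul_neg, mul_one, neg_mul]
    rw [Finset.sum_congr rfl e1, Finset.sum_sub_distrib, Finset.sum_ite_eq, if_pos hs,
      Finset.sum_comm]
    have e2 : ∀ v ∈ s.toFinset.filter (fun v => Legal s v ∧ 2 ≤ v ∧ p v),
        ∑ x ∈ P, (-1 : ℤ) ^ (card (raise s v) + card x) *
          cnt (fun a b => ¬ R a b) (fun b => ¬ R v b) (raise s v) x * cnt R (fun _ => True) x t =
          cnt R (R v) (raise s v) t := by
      intro v hv
      have hl := (Finset.mem_filter.1 hv).2.1
      rw [ih _ (by have := hl.card_raise; omega) _ rfl (hP s hs v hl)]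
      simp only [not_not]
    rw [Finset.sum_congr rfl e2, cnt_rec R (fun _ => True) s t, cnt_rec R (fun v => ¬ p v) s t]
    push_cast
    have e3 := Finset.sum_filter_add_sum_filter_not (s.toFinset.filter (fun v => Legal s v ∧ 2 ≤ v ∧ True))
      p (fun v => (cnt R (R v) (raise s v) t : ℤ))
    simp only [Finset.filter_filter, and_true, and_assoc] at e3 ⊢
    rw [← e3]
    ring_nf

/-- Ascents. -/
def Asc (a b : ℕ) : Prop := b = a ∨ a + 2 ≤ b

theorem asc_trans : ∀ {a b c}, Asc a b → Asc b c → Asc a c := by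
  intro a b c h h'
  unfold Asc at *
  omega

theorem leads_of_raise {w : List ℕ} {s t : Multiset ℕ} (h : Raise s w t) : Leads s w t := by
  induction w generalizing s with
  | nil =>
    obtain ⟨u, rfl, rfl⟩ := h
    simp [Leads]
  | cons v w ih =>
    obtain ⟨u, rfl, rfl⟩ := h
    refine ⟨(w : Multiset ℕ) + replicate w.length 1 + u, ?_, ih ⟨(v + 1) ::ₘ u, ?_, ?_⟩⟩
    · rw [← cons_coe, card_cons, replicate_succ]
      simp only [cons_add, add_cons, coe_card]
    · simp
    · rw [← cons_coe]
      simp only [map_cons, cons_add, add_cons]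

theorem raise_of_leads {w : List ℕ} {s t : Multiset ℕ} (h : Leads s w t) (h2 : ∀ v ∈ w, 2 ≤ v)
    (hn : ∀ v ∈ w, v + 1 ∉ w) : Raise s w t := by
  induction w generalizing s with
  | nil => exact ⟨t, by simpa [Leads] using h, by simp⟩
  | cons v w ih =>
    obtain ⟨u, rfl, h⟩ := h
    obtain ⟨u', e1, rfl⟩ := ih h (fun x hx => h2 x (by simp [hx]))
      fun x hx e => hn x (by simp [hx]) (by simp [e])
    have h3 : v + 1 ∈ u' := by
      have : v + 1 ∈ (w : Multiset ℕ) + replicate (card (w : Multiset ℕ)) 1 + u' := by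
        rw [← e1]
        simp
      rcases mem_add.1 this with h4 | h4
      · rcases mem_add.1 h4 with h5 | h5
        · exact absurd (List.mem_cons_of_mem _ (by simpa using h5)) (hn v (by simp))
        · have := eq_of_mem_replicate h5
          have := h2 v (by simp)
          omega
      · exact h4
    obtain ⟨u'', rfl⟩ := exists_cons_of_mem h3
    rw [add_cons, cons_inj_right] at e1
    refine ⟨u'', ?_, ?_⟩
    · rw [e1, ← cons_coe, card_cons, replicate_succ]
      simp only [cons_add, add_cons]
    · rw [← cons_coe]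
      simp only [map_cons, cons_add, add_cons]

theorem asc_iff {w : List ℕ} : w.IsChain Asc ↔ w.Pairwise (· ≤ ·) ∧ ∀ v ∈ w, v + 1 ∉ w := by
  have : Trans Asc Asc Asc := ⟨asc_trans⟩
  rw [List.isChain_iff_pairwise]
  constructor
  · intro h
    refine ⟨h.imp fun h => by unfold Asc at h; omega, fun v hv hv' => ?_⟩
    have h1 : w.Pairwise fun a b => Asc a b ∨ Asc b a := h.imp Or.inl
    have : Std.Symm fun a b => Asc a b ∨ Asc b a := ⟨fun _ _ h => Or.symm h⟩
    have h2 := List.Pairwise.forall_of_forall (R := fun a b => Asc a b ∨ Asc b a)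
      (fun a _ => Or.inl (Or.inl rfl)) h1 hv hv'
    unfold Asc at h2
    omega
  · rintro ⟨h1, h2⟩
    refine h1.imp_of_mem fun {a b} ha hb h => ?_
    have : b ≠ a + 1 := fun e => h2 a ha (e ▸ hb)
    unfold Asc
    omega

open Classical in
theorem cnt_asc {s t : Multiset ℕ} (hs : ∀ x ∈ s, 0 < x) (ht : ∀ x ∈ t, 0 < x) :
    cnt Asc (fun _ => True) s t = if Tight s t ∧ card (big s) = card (big t) then 1 else 0 := by
  unfold cnt
  split_ifs with h
  · obtain ⟨G, hG, h2⟩ := (h.1.struct hs ht).2 h.2.le
    rw [Set.ncard_eq_one]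
    refine ⟨G.sort, ?_⟩
    ext w
    simp only [Set.mem_ofPred_eq, Set.mem_singleton_iff, asc_iff]
    constructor
    · rintro ⟨⟨h3, h4⟩, -, h5, h6⟩
      have h7 := (raise_of_leads h6 h5 h4).unique hG
      refine List.Perm.eq_of_pairwise (le := (· ≤ ·)) (fun a b _ _ => le_antisymm) h3
        (G.pairwise_sort _) ?_
      rw [← coe_eq_coe, h7, sort_eq]
    · rintro rfl
      refine ⟨⟨G.pairwise_sort _, fun v hv => ?_⟩, fun _ _ => trivial, fun v hv => h2 v (by simpa using hv),
        leads_of_raise (by rwa [sort_eq])⟩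
      simpa using h.1.nonadj hG (by simpa using hv)
  · rw [Set.ncard_eq_zero ((finite_leads t s).subset fun w hw => hw.2.2.2), Set.eq_empty_iff_forall_notMem]
    rintro w ⟨h1, -, h2, h3⟩
    have h4 := (asc_iff.1 h1).2
    have h5 := raise_of_leads h3 h2 h4
    exact h ⟨h5.tight (by simpa using h2) (by simpa using h4), h5.big_card (by simpa using h2)⟩

theorem Leads.big_card {w : List ℕ} {s t : Multiset ℕ} (h : Leads s w t) (h2 : ∀ v ∈ w, 2 ≤ v) :
    card (big s) = card (big t) := by
  induction w generalizing s with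
  | nil => rw [show s = t from h]
  | cons v w ih =>
    obtain ⟨u, rfl, h⟩ := h
    have h3 := h2 v (by simp)
    rw [← ih h fun x hx => h2 x (by simp [hx])]
    simp only [big_cons]
    rw [if_neg (by omega), if_pos h3, if_pos (by omega)]
    simp

theorem cnt_eq_zero {R : ℕ → ℕ → Prop} {p : ℕ → Prop} {s t : Multiset ℕ}
    (h : card (big s) ≠ card (big t)) : cnt R p s t = 0 := by
  unfold cnt
  rw [Set.ncard_eq_zero ((finite_leads t s).subset fun w hw => hw.2.2.2), Set.eq_empty_iff_forall_notMem]
  rintro w ⟨-, -, h2, h3⟩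
  exact h (h3.big_card h2)

theorem leads_append {w w' : List ℕ} {s t : Multiset ℕ} :
    Leads s (w ++ w') t ↔ ∃ m, Leads s w m ∧ Leads m w' t := by
  induction w generalizing s with
  | nil => simp [Leads]
  | cons v w ih =>
    simp only [List.cons_append, leads_cons, ih]
    constructor
    · rintro ⟨h, m, h1, h2⟩
      exact ⟨m, ⟨h, h1⟩, h2⟩
    · rintro ⟨m, ⟨h, h1⟩, h2⟩
      exact ⟨h, m, h1, h2⟩

/-- Split a part 2 into two parts 1. -/
def unD (t : Multiset ℕ) : Multiset ℕ := 1 ::ₘ 1 ::ₘ t.erase 2

theorem leads_one {m t : Multiset ℕ} : Leads m [1] t ↔ 2 ∈ t ∧ m = unD t := by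
  constructor
  · rintro ⟨u, rfl, h⟩
    have h' : 2 ::ₘ u = t := h
    subst h'
    simp [unD]
  · rintro ⟨h, rfl⟩
    exact ⟨_, rfl, cons_erase h⟩

theorem Leads.pos {w : List ℕ} {s t : Multiset ℕ} (h : Leads s w t) (hs : ∀ x ∈ s, 0 < x) :
    ∀ v ∈ w, 0 < v := by
  induction w generalizing s with
  | nil => simp
  | cons v w ih =>
    obtain ⟨u, rfl, h⟩ := h
    intro x hx
    rcases List.mem_cons.1 hx with rfl | hx
    · exact hs _ (by simp)
    · refine ih h (fun y hy => ?_) x hx
      rcases mem_cons.1 hy with rfl | hy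
      · omega
      · exact hs _ (by simp [hy])

theorem fall_eq {s t : Multiset ℕ} (hs : ∀ x ∈ s, 0 < x) :
    fall s t = cnt (fun a b => ¬ Asc a b) (fun _ => True) s t +
      if 2 ∈ t then cnt (fun a b => ¬ Asc a b) (fun _ => True) s (unD t) else 0 := by
  have chain : ∀ w : List ℕ, (∀ v ∈ w, 2 ≤ v) →
      (w.IsChain (fun a b => a ≠ 1 ∧ b ≠ a ∧ b ≤ a + 1) ↔ w.IsChain fun a b => ¬ Asc a b) := by
    intro w hw
    constructor
    · exact fun h => h.imp fun a b h => by unfold Asc; omega
    · intro h
      refine h.imp_of_mem_imp fun a b ha _ h => ?_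
      have := hw a ha
      unfold Asc at h
      omega
  have e : {w : List ℕ | w.IsChain (fun a b => a ≠ 1 ∧ b ≠ a ∧ b ≤ a + 1) ∧ Leads s w t} =
      {w : List ℕ | w.IsChain (fun a b => ¬ Asc a b) ∧ (∀ v ∈ w.head?, True) ∧ (∀ v ∈ w, 2 ≤ v) ∧
        Leads s w t} ∪ (· ++ [1]) '' {w : List ℕ | 2 ∈ t ∧ w.IsChain (fun a b => ¬ Asc a b) ∧
          (∀ v ∈ w.head?, True) ∧ (∀ v ∈ w, 2 ≤ v) ∧ Leads s w (unD t)} := by
    ext w
    simp only [Set.mem_ofPred_eq, Set.mem_union, Set.mem_image]
    constructor
    · rintro ⟨h1, h2⟩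
      have hp := h2.pos hs
      by_cases h : ∀ v ∈ w, 2 ≤ v
      · exact Or.inl ⟨(chain w h).1 h1, fun _ _ => trivial, h, h2⟩
      · rcases List.eq_nil_or_concat w with rfl | ⟨w', x, rfl⟩
        · simp at h
        · rw [List.concat_eq_append] at *
          have h3 : ∀ v ∈ w', 2 ≤ v := by
            intro v hv
            obtain ⟨l1, l2, rfl⟩ := List.append_of_mem hv
            have h4 := hp v (by simp)
            rw [List.append_assoc, List.cons_append, List.isChain_split] at h1
            have h5 := (List.isChain_cons.1 h1.2).1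
            rcases l2 with _ | ⟨y, l2⟩
            · have := (h5 x (by simp)).1
              omega
            · have := (h5 y (by simp)).1
              omega
          have h4 : x = 1 := by
            by_contra e
            refine h fun v hv => ?_
            rcases List.mem_append.1 hv with hv | hv
            · exact h3 v hv
            · have := hp v (by simp [hv])
              have : v = x := by simpa using hv
              omega
          subst h4
          obtain ⟨m, h5, h6⟩ := leads_append.1 h2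
          obtain ⟨h7, rfl⟩ := leads_one.1 h6
          exact Or.inr ⟨w', ⟨h7, (chain w' h3).1 h1.left_of_append, fun _ _ => trivial, h3, h5⟩, rfl⟩
    · rintro (⟨h1, -, h2, h3⟩ | ⟨w', ⟨h0, h1, -, h2, h3⟩, rfl⟩)
      · exact ⟨(chain w h2).2 h1, h3⟩
      · refine ⟨List.IsChain.append ((chain w' h2).2 h1) (by simp) ?_,
          leads_append.2 ⟨_, h3, leads_one.2 ⟨h0, rfl⟩⟩⟩
        intro x hx y hy
        have := h2 x (List.mem_of_mem_getLast? hx)
        have : y = 1 := by simpa using hy.symm
        omega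
  unfold fall cnt
  rw [e, Set.ncard_union_eq _ ((finite_leads t s).subset fun w hw => hw.2.2.2)
    (((finite_leads (unD t) s).subset fun w hw => hw.2.2.2.2).image _),
    Set.ncard_image_of_injective _ (List.append_left_injective _)]
  · congr 1
    split_ifs with h <;> simp [h]
  · rw [Set.disjoint_left]
    rintro w h1 ⟨w', -, rfl⟩
    have := h1.2.2.1 1 (by simp)
    omega

end Pool.Agent.Work.MP_84e666_co
end

-- merged part: Pool.Agent.Work.MP_84e666_co.Top
section
/-! The reduction to tight refinements and the falling word formula. -/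

namespace Pool.Agent.Work.MP_84e666_co

open Multiset

def PP (n : ℕ) : Finset (Multiset ℕ) := Finset.univ.image fun z : n.Partition => z.parts

theorem mem_PP {n : ℕ} {s : Multiset ℕ} : s ∈ PP n ↔ (∀ x ∈ s, 0 < x) ∧ s.sum = n := by
  simp only [PP, Finset.mem_image, Finset.mem_univ, true_and]
  constructor
  · rintro ⟨z, rfl⟩
    exact ⟨fun x hx => z.parts_pos hx, z.parts_sum⟩
  · rintro ⟨h1, h2⟩
    exact ⟨⟨s, fun hx => h1 _ hx, h2⟩, rfl⟩

theorem parts_mem {n : ℕ} (z : n.Partition) : z.parts ∈ PP n :=
  Finset.mem_image_of_mem _ (Finset.mem_univ z)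

theorem parts_inj {n : ℕ} : Function.Injective fun z : n.Partition => z.parts :=
  fun _ _ h => Nat.Partition.ext h

theorem raise_mem {n : ℕ} {s : Multiset ℕ} (hs : s ∈ PP n) (v : ℕ) (h : Legal s v) :
    raise s v ∈ PP n := by
  rw [mem_PP] at hs ⊢
  refine ⟨fun x hx => ?_, ?_⟩
  · rcases mem_cons.1 hx with rfl | hx
    · omega
    · exact hs.1 x (mem_of_mem_erase (mem_of_mem_erase hx))
  · have h1 := sum_erase h.1
    have h2 := sum_erase h.2
    simp only [raise, sum_cons]
    omega

theorem unD_mem {n : ℕ} {s : Multiset ℕ} (hs : s ∈ PP n) (h : 2 ∈ s) : unD s ∈ PP n := by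
  rw [mem_PP] at hs ⊢
  refine ⟨fun x hx => ?_, ?_⟩
  · simp only [unD, mem_cons] at hx
    rcases hx with rfl | rfl | hx
    · omega
    · omega
    · exact hs.1 x (mem_of_mem_erase hx)
  · have h1 := sum_erase h
    simp only [unD, sum_cons]
    omega

theorem tight_refl {t : Multiset ℕ} (ht : ∀ x ∈ t, 0 < x) : Tight t t := by
  refine ⟨Refines.refl t, ?_⟩
  rintro ⟨u, e, h⟩
  have h1 := (h.card_le ht).1
  rw [e] at h1
  simp only [card_cons] at h1
  omega

open Classical in
theorem tri_unique (Q : Finset (Multiset ℕ)) (hQ : ∀ s ∈ Q, ∀ x ∈ s, 0 < x) (d : Multiset ℕ → ℤ)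
    (h : ∀ t ∈ Q, ∑ s ∈ Q.filter (fun s => Tight s t), d s = 0) : ∀ t ∈ Q, d t = 0 := by
  by_contra hcon
  push Not at hcon
  obtain ⟨t, ht, hmax⟩ := Finset.exists_max_image (Q.filter fun t => d t ≠ 0) card
    (by obtain ⟨t, h1, h2⟩ := hcon; exact ⟨t, Finset.mem_filter.2 ⟨h1, h2⟩⟩)
  obtain ⟨h1, h2⟩ := Finset.mem_filter.1 ht
  apply h2
  rw [← h t h1]
  refine (Finset.sum_eq_single_of_mem (f := d) (s := Q.filter fun s => Tight s t) t
    (Finset.mem_filter.2 ⟨h1, tight_refl (hQ t h1)⟩) ?_).symm
  intro s hs hne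
  by_contra e
  obtain ⟨h3, h4⟩ := Finset.mem_filter.1 hs
  exact hne ((h4.1.card_le (hQ t h1)).2 (hmax s (Finset.mem_filter.2 ⟨h3, e⟩)))

open Classical in
/-- The function `ν` with `μ = ν - ν ∘ unD`, inverse to the tight relation. -/
theorem exists_nu {n : ℕ} {μ : n.Partition → n.Partition → ℤ} (hμ : IsMobius μ)
    (l : n.Partition) : ∃ ν : Multiset ℕ → ℤ,
      (∀ r : n.Partition, Refines l.parts r.parts →
        μ l r = ν r.parts - if 2 ∈ r.parts then ν (unD r.parts) else 0) ∧
      ∀ t ∈ PP n, ∑ s ∈ (PP n).filter (fun s => Tight s t), ν s = if l.parts = t then 1 else 0 := by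
  obtain ⟨f, hf⟩ : ∃ f : Multiset ℕ → ℤ, ∀ z : n.Partition,
      f z.parts = if Refines l.parts z.parts then μ l z else 0 :=
    ⟨Function.extend (fun z : n.Partition => z.parts)
      (fun z => if Refines l.parts z.parts then μ l z else 0) 0, fun z => parts_inj.extend_apply _ _ z⟩
  have fsum : ∀ t ∈ PP n, ∑ s ∈ (PP n).filter (fun s => Refines s t), f s =
      if l.parts = t then 1 else 0 := by
    intro t ht
    obtain ⟨r, -, rfl⟩ := Finset.mem_image.1 ht
    rw [PP, Finset.filter_image, Finset.sum_image fun _ _ _ _ h => parts_inj h]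
    simp only [hf]
    rw [← Finset.sum_filter, Finset.filter_filter]
    split_ifs with h
    · have := parts_inj h
      subst this
      rw [Finset.sum_eq_single_of_mem l (by simp [Refines.refl]), hμ.1]
      intro z hz hne
      obtain ⟨-, h1, h2⟩ := Finset.mem_filter.1 hz
      exact absurd (parts_inj ((h1.card_le fun x hx => l.parts_pos hx).2
        (h2.card_le fun x hx => z.parts_pos hx).1)) hne
    · by_cases h1 : Refines l.parts r.parts
      · have h2 := hμ.2 l r h1 fun e => h (by rw [e])
        rw [← Finset.add_sum_erase _ _ (a := r) (by simp [Refines.refl, h1]), h2, neg_add_eq_zero]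
        refine Finset.sum_congr ?_ fun _ _ => rfl
        ext z
        simp only [Finset.mem_filter, Finset.mem_univ, true_and, Finset.mem_erase]
        clear * -
        tauto
      · refine Finset.sum_eq_zero fun z hz => ?_
        obtain ⟨-, h2, h3⟩ := Finset.mem_filter.1 hz
        exact absurd (h3.trans h2) h1
  let g : ℕ → Multiset ℕ → ℤ := fun k => Nat.rec f (fun _ r s => f s + r (unD s)) k
  obtain ⟨ν, hν⟩ : ∃ ν : Multiset ℕ → ℤ, ∀ s, ν s = f s + if 2 ∈ s then ν (unD s) else 0 := by
    refine ⟨fun s => g (count 2 s) s, fun s => ?_⟩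
    split_ifs with h
    · have : count 2 s = count 2 (unD s) + 1 := by
        have := count_pos.2 h
        simp only [unD]
        rw [count_cons_of_ne (by omega), count_cons_of_ne (by omega), count_erase_self]
        omega
      beta_reduce
      rw [this]
    · beta_reduce
      rw [count_eq_zero_of_notMem h, add_zero]
      rfl
  refine ⟨ν, fun r hr => ?_, fun t ht => ?_⟩
  · rw [hν r.parts, hf, if_pos hr]
    ring
  · rw [← fsum t ht]
    have e1 : ∀ s, f s = ν s - if 2 ∈ s then ν (unD s) else 0 := fun s => by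
      rw [hν s]
      ring
    simp only [e1]
    rw [Finset.sum_sub_distrib, ← Finset.sum_filter, eq_sub_iff_add_eq,
      ← Finset.sum_filter_add_sum_filter_not ((PP n).filter fun s => Refines s t)
        (fun s => ¬ ∃ u, s = 1 ::ₘ 1 ::ₘ u ∧ Refines (2 ::ₘ u) t), Finset.filter_filter]
    refine congrArg₂ (· + ·) ?_ ?_
    · rw [Finset.filter_filter]
      exact Finset.sum_congr (Finset.filter_congr fun _ _ => Iff.rfl) fun _ _ => rfl
    · refine Finset.sum_bij (fun s _ => unD s) ?_ ?_ ?_ fun _ _ => rfl
      · intro s hs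
        obtain ⟨h1, h2, h3⟩ := Finset.mem_filter.1 hs
        simp only [Finset.mem_filter, not_not]
        have h4 : Refines (unD s) s := by
          conv_rhs => rw [← cons_erase h3]
          exact refines_cons.2 ⟨{1, 1}, s.erase 2, by simp [unD], by simp, Refines.refl _⟩
        exact ⟨⟨unD_mem h1 h3, h4.trans h2⟩, s.erase 2, rfl, by rwa [cons_erase h3]⟩
      · intro s hs s' hs' e
        have h3 := (Finset.mem_filter.1 hs).2.2
        have h4 := (Finset.mem_filter.1 hs').2.2
        simp only [unD, cons_inj_right] at e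
        rw [← cons_erase h3, e, cons_erase h4]
      · intro s hs
        simp only [Finset.mem_filter, not_not] at hs
        obtain ⟨⟨h1, -⟩, u, rfl, h2⟩ := hs
        refine ⟨2 ::ₘ u, Finset.mem_filter.2 ⟨?_, h2, by simp⟩, by simp [unD]⟩
        rw [mem_PP] at h1 ⊢
        refine ⟨fun x hx => ?_, ?_⟩
        · rcases mem_cons.1 hx with rfl | hx
          · omega
          · exact h1.1 x (by simp [hx])
        · have := h1.2
          simp only [sum_cons] at this ⊢
          omega

open Classical in
theorem nu_top {n : ℕ} {l : Multiset ℕ} (hl : l ∈ PP n) {ν : Multiset ℕ → ℤ}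
    (hν : ∀ t ∈ PP n, ∑ s ∈ (PP n).filter (fun s => Tight s t), ν s = if l = t then 1 else 0)
    {t : Multiset ℕ} (ht : t ∈ PP n) (hb : card (big l) ≤ card (big t)) :
    ν t = (-1) ^ (card l + card t) * cnt (fun a b => ¬ Asc a b) (fun _ => True) l t := by
  have pos : ∀ s ∈ PP n, ∀ x ∈ s, 0 < x := fun s hs => (mem_PP.1 hs).1
  rw [← sub_eq_zero]
  refine tri_unique ((PP n).filter fun t => card (big l) ≤ card (big t))
    (fun s hs => pos s (Finset.mem_filter.1 hs).1)
    (fun t => ν t - (-1) ^ (card l + card t) * cnt (fun a b => ¬ Asc a b) (fun _ => True) l t)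
    (fun t ht => ?_) t (Finset.mem_filter.2 ⟨ht, hb⟩)
  obtain ⟨ht, hb⟩ := Finset.mem_filter.1 ht
  have e1 : ((PP n).filter fun t => card (big l) ≤ card (big t)).filter (fun s => Tight s t) =
      (PP n).filter (fun s => Tight s t) := by
    ext s
    simp only [Finset.mem_filter]
    exact ⟨fun h => ⟨h.1.1, h.2⟩, fun h => ⟨⟨h.1, hb.trans (h.2.struct (pos s h.1) (pos t ht)).1⟩, h.2⟩⟩
  rw [e1, Finset.sum_sub_distrib, hν t ht, sub_eq_zero]
  have e2 := inversion Asc (PP n) (fun s hs v h => raise_mem hs v h) t l hl fun _ => True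
  rw [cnt_rec Asc (fun _ => ¬ True)] at e2
  simp only [not_true, and_false, Finset.filter_false, Finset.sum_empty, add_zero] at e2
  rw [show (if l = t then (1 : ℤ) else 0) = ((if l = t then 1 else 0 : ℕ) : ℤ) by split_ifs <;> rfl,
    ← e2, Finset.sum_filter]
  refine Finset.sum_congr rfl fun x hx => ?_
  rw [cnt_asc (pos x hx) (pos t ht)]
  by_cases h : Tight x t
  · by_cases h' : card (big x) = card (big t)
    · simp [h, h']
    · have := (h.struct (pos x hx) (pos t ht)).1
      rw [cnt_eq_zero (by omega)]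
      simp
  · simp [h]

theorem card_unD {t : Multiset ℕ} (h : 2 ∈ t) : card (unD t) = card t + 1 := by
  have := card_erase_add_one h
  simp only [unD, card_cons]
  omega

theorem big_unD {t : Multiset ℕ} (h : 2 ∈ t) : big t = 2 ::ₘ big (unD t) := by
  conv_lhs => rw [← cons_erase h]
  simp [unD, big_cons]

theorem neg_one_pow_sub {a b : ℕ} (h : b ≤ a) : (-1 : ℤ) ^ (a - b) = (-1) ^ (a + b) := by
  rw [show a + b = a - b + 2 * b by omega, pow_add, pow_mul]
  simp

theorem mu_top {n : ℕ} {μ : n.Partition → n.Partition → ℤ} (hμ : IsMobius μ) (l r : n.Partition)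
    (hlr : Refines l.parts r.parts)
    (h : card (big l.parts) < card (big r.parts) ∨
      (card (big l.parts) = card (big r.parts) ∧ 2 ∉ r.parts)) :
    μ l r = (-1) ^ (card l.parts - card r.parts) * fall l.parts r.parts := by
  obtain ⟨ν, h1, h2⟩ := exists_nu hμ l
  rw [h1 r hlr, fall_eq fun x hx => l.parts_pos hx,
    nu_top (parts_mem l) h2 (parts_mem r) (by omega),
    neg_one_pow_sub (hlr.card_le fun x hx => r.parts_pos hx).1]
  split_ifs with h3
  · have h4 := congrArg card (big_unD h3)
    rw [card_cons] at h4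
    have h5 := h.resolve_right fun e => e.2 h3
    rw [nu_top (parts_mem l) h2 (unD_mem (parts_mem r) h3) (by omega), card_unD h3, ← add_assoc,
      pow_succ]
    push_cast
    ring
  · simp

theorem fall_eq_zero {s t : Multiset ℕ} (hs : ∀ x ∈ s, 0 < x)
    (h : card (big s) + 2 ≤ card (big t) ∨ (card (big s) + 1 = card (big t) ∧ 2 ∉ t)) :
    fall s t = 0 := by
  rw [fall_eq hs, cnt_eq_zero (by omega)]
  split_ifs with h3
  · have h4 := congrArg card (big_unD h3)
    rw [card_cons] at h4
    have h5 := h.resolve_right fun e => e.2 h3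
    rw [cnt_eq_zero (by omega)]
  · rfl

open Classical in
theorem exists_mobius (n : ℕ) : ∃ μ : n.Partition → n.Partition → ℤ, IsMobius μ := by
  let _ : PartialOrder n.Partition :=
    { le := fun a b => Refines a.parts b.parts
      le_refl := fun a => Refines.refl _
      le_trans := fun a b c => Refines.trans
      le_antisymm := fun a b h h' => parts_inj ((h.card_le fun x hx => b.parts_pos hx).2
        (h'.card_le fun x hx => a.parts_pos hx).1) }
  let _ : LocallyFiniteOrder n.Partition := Fintype.toLocallyFiniteOrder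
  refine ⟨fun a b => IncidenceAlgebra.mu ℤ a b, fun x => IncidenceAlgebra.mu_self x, fun x y _ hne => ?_⟩
  beta_reduce
  rw [IncidenceAlgebra.mu_eq_neg_sum_Ico_of_ne hne]
  congr 2
  ext z
  simp only [Finset.mem_Ico, Finset.mem_filter, Finset.mem_univ, true_and, lt_iff_le_and_ne]
  rfl

end Pool.Agent.Work.MP_84e666_co
end
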