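import Pool.Agent.Work.MP_84e666_co.N.ChainMu
import Pool.Agent.Work.MP_84e666_co.H45Gad
import Pool.Agent.Work.MP_84e666_co.Top

/-! The Möbius value attached to a system of linear equations in literals. -/

namespace Pool.Agent.Work.MP_84e666_co

namespace Pack

open Finset Sum

theorem map_univ {ι : Type} [Fintype ι] (f : ι → ℕ) : univ.val.map f = ∑ j, {f j} := by
  rw [← Multiset.sum_map_singleton (univ.val.map f), Multiset.map_map]
  rfl

theorem coe_flatMap (k : ℕ) (g : ℕ → List ℕ) :
    (((List.range k).flatMap g : List ℕ) : Multiset ℕ) = ∑ v : Fin k, (g v : Multiset ℕ) := by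
  induction k with
  | zero => simp
  | succ k ih => simp [List.range_succ, Fin.sum_univ_castSucc, ← ih]

theorem coe_map (k : ℕ) (g : ℕ → ℕ) :
    (((List.range k).map g : List ℕ) : Multiset ℕ) = ∑ v : Fin k, {g v} := by
  rw [List.map_eq_flatMap, coe_flatMap]
  rfl

theorem sum_range_map (k : ℕ) (g : ℕ → ℕ) : ((List.range k).map g).sum = ∑ v : Fin k, g v := by
  rw [Fin.sum_univ_eq_sum_range]
  rfl

variable (n m : ℕ) (a : ℕ → ℕ → Bool → ℕ) (b : ℕ → ℕ) (M : ℕ)

/-- The base of the numeral system. -/
def bb : ℕ := (m * (n * 2 * 2) + (n * 2 + 3)) * (2 * (2 * n + m + 12) ^ 2) + 1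

/-- The sizes of links and switches. -/
def sizes : List ℕ :=
  ((List.range m).flatMap fun e => (List.range n).flatMap fun v =>
    [szL (bb n m) e (2 * v + 1) (a e v true + 1), szL (bb n m) e (2 * v + 1) 0,
      szL (bb n m) e (2 * v) (a e v false + 1), szL (bb n m) e (2 * v) 0]) ++
  (List.range n).flatMap fun v =>
    [szS (bb n m) v 0 M, szS (bb n m) v (if v = 0 then 1 else 0) 0]

/-- The unmarked parts. -/
def lam0 : List ℕ := [12, 11, 11, 11, 11, 11, 10, 8, 7, 6] ++ sizes n m a M

/-- The marked parts. -/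
def mark (j : ℕ) : ℕ := ((lam0 n m a M).sum + 1) * (j + 1)

/-- The lower partition. -/
def lamL : List ℕ := lam0 n m a M ++
  (((List.range n).flatMap fun v => [mark n m a M (2 * v + 1), mark n m a M (2 * v)]) ++
    (List.range m).map fun e => mark n m a M (2 * n + e))

/-- The target of a literal bin. -/
def tL (v δ : ℕ) : ℕ := ((List.range m).map fun e => szL (bb n m) e (2 * v + δ) 0).sum +
  (szS (bb n m) v 0 M + if v = 0 then 11 + δ else 0)

/-- The target of an equation bin. -/
def tE (e : ℕ) : ℕ := ((List.range n).map fun v =>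
  szL (bb n m) e (2 * v + 1) 0 + szL (bb n m) e (2 * v) 0).sum + bb n m ^ 8 * (b e + n)

/-- The upper partition. -/
def rhoL : List ℕ := [22, 19, 18, 17] ++
  (((List.range n).flatMap fun v =>
    [mark n m a M (2 * v + 1) + tL n m M v 1, mark n m a M (2 * v) + tL n m M v 0]) ++
    (List.range m).map fun e => mark n m a M (2 * n + e) + tE n m b e)

/-- The numbers of items in the bins. -/
def numL : List ℕ :=
  ((List.range n).flatMap fun v =>
    [m + (1 + if v = 0 then 1 else 0), m + (1 + if v = 0 then 1 else 0)]) ++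
    (List.range m).map fun _ => n * 2

/-- The number of a bin. -/
def bcode {n m : ℕ} : Box n m → ℕ
  | inl l => code l
  | inr e => 2 * n + e

theorem bcode_inj {n m : ℕ} {i j : Box n m} (h : bcode i = bcode j) : i = j := by
  have c : ∀ l : Fin n × Bool, code l < 2 * n := fun l => by
    have := l.1.2
    have := Bool.toNat_le l.2
    unfold code
    omega
  rcases i with l | e <;> rcases j with l' | e' <;> simp only [bcode] at h
  · rw [code_inj h]
  · have := c l
    omega
  · have := c l'
    omega
  · rw [Fin.ext (by omega : e.val = e'.val)]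

theorem pair_coe (x y : ℕ) : (([x, y] : List ℕ) : Multiset ℕ) = {x} + {y} := rfl

theorem quad_coe (x y z w : ℕ) :
    (([x, y, z, w] : List ℕ) : Multiset ℕ) = ({x} + {y}) + ({z} + {w}) := rfl

theorem sizes_eq : (sizes n m a M : Multiset ℕ) = (base n m).map (size a M (bb n m)) := by
  simp only [sizes, base, ← Multiset.coe_add, coe_flatMap, Multiset.map_add, Multiset.map_map,
    map_univ, Function.comp, size_link, size_sw, Fintype.sum_prod_type, Fintype.sum_bool, pair_coe,
    quad_coe]
  simp [code, low]

theorem box_eq (f : Box n m → ℕ) (g g' h : ℕ → ℕ) (h1 : ∀ v, f (inl (v, true)) = g v)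
    (h2 : ∀ v, f (inl (v, false)) = g' v) (h3 : ∀ e, f (inr e) = h e) :
    ((((List.range n).flatMap fun v => [g v, g' v]) ++ (List.range m).map h : List ℕ) :
      Multiset ℕ) = univ.val.map f := by
  simp only [← Multiset.coe_add, coe_flatMap, coe_map, map_univ, Fintype.sum_sum_type,
    Fintype.sum_prod_type, Fintype.sum_bool, pair_coe, h1, h2, h3]

theorem numL_prod : ((numL n m).map Nat.factorial).prod = ∏ j : Box n m, (num j).factorial := by
  rw [← Multiset.prod_coe, ← Multiset.map_coe, numL,
    box_eq n m num _ _ _ (fun _ => rfl) (fun _ => rfl) fun _ => rfl, Multiset.map_map]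
  rfl

theorem sizes_big : ∀ x ∈ sizes n m a M, 76 < x := by
  have hb : 76 < bb n m := by
    have h1 : 12 ^ 2 ≤ (2 * n + m + 12) ^ 2 := Nat.pow_le_pow_left (by omega) _
    have h2 : 1 * (2 * (2 * n + m + 12) ^ 2) ≤ _ :=
      Nat.mul_le_mul_right _ (by omega : 1 ≤ m * (n * 2 * 2) + (n * 2 + 3))
    unfold bb
    omega
  have h1 : ∀ e l x, 76 < szL (bb n m) e l x := fun e l x =>
    hb.trans_le (Nat.le_mul_of_pos_right _ (by omega))
  have h2 : ∀ v δ x, 76 < szS (bb n m) v δ x := fun v δ x =>
    hb.trans_le ((Nat.le_mul_of_pos_right _ (Nat.mul_pos (by omega) (by omega))).trans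
      (Nat.le_add_left _ _))
  simp only [sizes, List.mem_append, List.mem_flatMap, List.mem_cons, List.not_mem_nil, or_false]
  rintro x (⟨e, -, v, -, rfl | rfl | rfl | rfl⟩ | ⟨v, -, rfl | rfl⟩)
  exacts [h1 _ _ _, h1 _ _ _, h1 _ _ _, h1 _ _ _, h2 _ _ _, h2 _ _ _]

theorem two_bottoms : ∀ y ∈ Multiset.powerset ([12, 11, 11, 11, 11, 11, 10, 8, 7, 6] : List ℕ),
    y.sum = 76 → y = botP.parts ∨ y = botN.parts := by
  decide +kernel

/-- The bottom for a value of the first variable. -/
def bot (s : Bool) : Nat.Partition 76 := if s = true then botP else botN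

theorem lam0_eq (s : Bool) : (lam0 n m a M : Multiset ℕ) =
    (bot s).parts + (base n m + gads s).map (size a M (bb n m)) := by
  rw [lam0, ← Multiset.coe_add, sizes_eq, Multiset.map_add, add_comm (Multiset.map _ (base n m)),
    ← add_assoc]
  congr 1
  cases s <;> simp only [gads, Multiset.insert_eq_cons, Multiset.map_cons, Multiset.map_singleton,
    size_gad] <;> decide +kernel

variable {n m a b M}

theorem gap_ab [NeZero n] (hM : ∀ l : Fin n × Bool, ∑ e : Fin m, (a e l.1 l.2 + 1) = M)
    (hM0 : 0 < M) {s : Bool} {z : Fin n → Bool} (hz : z ∈ sols a b n m s) :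
    ∃ (N : ℕ) (l r : N.Partition), l.parts = lamL n m a M ∧ r.parts = rhoL n m a b M ∧
      Refines l.parts r.parts ∧ ∀ μ, IsMobius μ → μ l r = ((numL n m).map Nat.factorial).prod *
        ((sols a b n m true).card - (sols a b n m false).card) := by
  classical
  have hB : Fintype.card (Tok n m) * (2 * (2 * n + m + 12) ^ 2) < bb n m := by
    rw [card_tok]
    exact Nat.lt_succ_self _
  let u : Box n m → ℕ := fun j => mark n m a M (bcode j)
  let t : Box n m → ℕ := tgt b M (bb n m)
  have hl : (lamL n m a M : Multiset ℕ) = lam0 n m a M + univ.val.map u := by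
    rw [lamL, ← Multiset.coe_add, box_eq n m u (fun v => mark n m a M (2 * v + 1))
      (fun v => mark n m a M (2 * v)) (fun e => mark n m a M (2 * n + e))
      (fun _ => congrArg (mark n m a M) rfl) (fun _ => congrArg (mark n m a M) rfl)
      fun _ => congrArg (mark n m a M) rfl]
  have hr : (rhoL n m a b M : Multiset ℕ) = top76.parts + univ.val.map fun j => u j + t j := by
    rw [rhoL, ← Multiset.coe_add, box_eq n m (fun j => u j + t j)]
    · rfl
    all_goals
      intro v
      simp [u, t, bcode, code, tgt, tL, tE, sum_range_map, Fintype.sum_prod_type,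
        sum_add_distrib]
  have hb : ∀ s, Refines (bot s).parts top76.parts := fun s => by
    cases s
    exacts [botN_le, botP_le]
  have hlr : Refines (lam0 n m a M) (top76.parts + univ.val.map t) := by
    obtain ⟨c1, c2⟩ := complete (B := bb n m) hM hz
    rw [lam0_eq n m a M s, ← c1, map_sum']
    exact (hb s).add ⟨univ.val.map fun j => (cont z j).map (size a M (bb n m)), rfl, by
      rw [Multiset.map_map]
      exact Multiset.map_congr rfl fun j _ => c2 j⟩
  have hlr' := refines_mark u _ hlr
  have hu : ∀ j, (lam0 n m a M).sum < u j := fun j => Nat.le_mul_of_pos_right _ (Nat.succ_pos _)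
  have hp : ∀ x ∈ lam0 n m a M, 0 < x := fun x hx => by
    rcases List.mem_append.1 hx with h | h
    · simp only [List.mem_cons, List.not_mem_nil, or_false] at h
      omega
    · exact (Nat.zero_lt_succ _).trans (sizes_big n m a M x h)
  have hs : ∀ x, SubSum (lam0 n m a M) x → x ≤ (lam0 n m a M).sum := by
    rintro _ ⟨A, hA, rfl⟩
    obtain ⟨C, hC⟩ := Multiset.le_iff_exists_add.1 hA
    rw [← Multiset.sum_coe, hC, Multiset.sum_add]
    omega
  let l : (lamL n m a M).sum.Partition := ⟨lamL n m a M, fun {x} hx => by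
    rcases Multiset.mem_add.1 (hl ▸ hx) with h | h
    · exact hp x h
    · obtain ⟨j, -, rfl⟩ := Multiset.mem_map.1 h
      exact (Nat.zero_le _).trans_lt (hu j), rfl⟩
  let r : (lamL n m a M).sum.Partition := ⟨rhoL n m a b M, fun {x} hx => by
    rcases Multiset.mem_add.1 (hr ▸ hx) with h | h
    · exact top76.parts_pos h
    · obtain ⟨j, -, rfl⟩ := Multiset.mem_map.1 h
      have := hu j
      omega, by rw [hr, ← hlr'.sum_eq, ← hl, Multiset.sum_coe]⟩
  refine ⟨_, l, r, rfl, rfl, by simpa only [l, r, hl, hr] using hlr', fun μ hμ => ?_⟩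
  obtain ⟨μ₀, hμ₀⟩ := exists_mobius 76
  rw [marked_aux μ₀ top76 hμ₀ hμ r _ l _ u t rfl hl hr (fun i x y _ hy => by
    have := hs y hy
    have := hu i
    omega) (fun i j x y hx hy e => bcode_inj (by
      have e' := congrArg (· / ((lam0 n m a M).sum + 1)) e
      simp only [u, mark] at e'
      rw [Nat.mul_add_div (Nat.succ_pos _), Nat.mul_add_div (Nat.succ_pos _),
        Nat.div_eq_of_lt (Nat.lt_succ_of_le (hs x hx)),
        Nat.div_eq_of_lt (Nat.lt_succ_of_le (hs y hy))] at e'
      omega)) hlr, GG]
  have hf : univ.filter (fun y : Nat.Partition 76 => y.parts ≤ lam0 n m a M ∧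
      Refines y.parts top76.parts) = {bot true, bot false} := by
    ext y
    simp only [mem_filter, mem_univ, true_and, mem_insert, mem_singleton]
    constructor
    · rintro ⟨h, -⟩
      refine (two_bottoms y.parts (Multiset.mem_powerset.2 ?_) y.parts_sum).imp
        (fun e => parts_inj e) fun e => parts_inj e
      have := Multiset.filter_le_filter (· ≤ 76) h
      rw [Multiset.filter_eq_self.2 fun x hx => y.parts_sum ▸ Multiset.le_sum_of_mem hx, lam0,
        ← Multiset.coe_add, Multiset.filter_add, (Multiset.filter_eq_nil (s := sizes n m a M)).2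
          fun x hx => not_le.2 (sizes_big n m a M x hx), add_zero] at this
      exact this.trans (Multiset.filter_le _ _)
    · rintro (rfl | rfl) <;> exact ⟨lam0_eq n m a M _ ▸ Multiset.le_add_right _ _, hb _⟩
  have hw : ∀ s, (-1 : ℤ) ^ (Multiset.card (lam0 n m a M : Multiset ℕ) - (bot s).parts.card) *
      words (lam0 n m a M - (bot s).parts) t =
        ((numL n m).map Nat.factorial).prod * (sols a b n m s).card := fun s => by
    rw [lam0_eq n m a M s, add_tsub_cancel_left, Multiset.card_add, add_tsub_cancel_left,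
      words_pack hB hM hM0, numL_prod, Even.neg_one_pow, one_mul, Nat.cast_mul]
    refine ⟨m * (n * 2) + n + 1, ?_⟩
    simp [base, gads]
    ring
  rw [hf, sum_pair (by decide +kernel), hw, hw]
  simp only [bot, if_true, Bool.false_eq_true, if_false, mu_botP hμ₀, mu_botN hμ₀]
  ring

end Pack

end Pool.Agent.Work.MP_84e666_co
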