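import Mathlib

namespace Pool.Agent.Work.MP_84e666_co

/-- The number of families of words `w j`, one for each index `j`, such that the letters of all
the words together form the multiset `m` and the letters of `w j` add up to `t j`. -/
noncomputable def words {ι : Type} [Fintype ι] (m : Multiset ℕ) (t : ι → ℕ) : ℕ :=
  {w : ι → List ℕ | ∑ j, (w j : Multiset ℕ) = m ∧ ∀ j, (w j).sum = t j}.ncard

end Pool.Agent.Work.MP_84e666_co
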