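import Pool.Agent.Work.MP_84e666_co.Top
import Pool.Agent.Work.MP_84e666_co.H45Words

-- merged part: Pool.Agent.Work.MP_84e666_co.H45States
section
/-! Intervals above a partition with marked parts: description by states. -/

namespace Pool.Agent.Work.MP_84e666_co

open Multiset

theorem refines_zero_cons {a b : Multiset ℕ} (ha : ∀ x ∈ a, 0 < x) :
    Refines a (0 ::ₘ b) ↔ Refines a b := by
  rw [refines_cons]
  constructor
  · rintro ⟨a1, a2, rfl, h1, h2⟩
    have : a1 = 0 := by
      by_contra h
      obtain ⟨x, hx⟩ := exists_mem_of_ne_zero h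
      have h3 := ha x (mem_add.2 (Or.inl hx))
      have h4 := single_le_sum (s := a1) (fun _ _ => Nat.zero_le _) x hx
      omega
    simpa [this] using h2
  · intro h
    exact ⟨0, a, by simp, by simp, h⟩

/-- `x` is the sum of a sub-multiset of `l`. -/
def SubSum (l : Multiset ℕ) (x : ℕ) : Prop := ∃ A ≤ l, A.sum = x

theorem Refines.subSum {a b c : Multiset ℕ} (h : Refines a b) (hc : c ≤ b) : SubSum a c.sum := by
  rw [← add_tsub_cancel_of_le hc] at h
  obtain ⟨a1, a2, rfl, h1, -⟩ := refines_add h
  exact ⟨a1, Multiset.le_add_right _ _, h1.sum_eq⟩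

theorem split_le (y p a1 a2 : Multiset ℕ) (h : y + p = a1 + a2) :
    a1 = a1 ∩ y + (a1 - y) ∧ a1 - y ≤ p ∧ a2 = (y - a1) + (p - (a1 - y)) ∧
      y = a1 ∩ y + (y - a1) := by
  have hc : ∀ x, count x y + count x p = count x a1 + count x a2 := fun x => by
    rw [← count_add, h, count_add]
  refine ⟨?_, ?_, ?_, ?_⟩
  · ext x
    simp only [count_add, count_inter, count_sub]
    omega
  · rw [le_iff_count]
    intro x
    have := hc x
    simp only [count_sub]
    omega
  · ext x
    have := hc x
    simp only [count_add, count_sub]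
    omega
  · ext x
    simp only [count_add, count_inter, count_sub]
    omega

theorem card_le_of_refines {w : Multiset ℕ} : ∀ {y p w' : Multiset ℕ}, Refines (y + p) (w + w') →
    (∀ c ≤ y, c.sum ∉ w) → card w ≤ card p := by
  induction w using Multiset.induction_on with
  | empty => intro y p w' _ _; simp
  | cons x w ih =>
    intro y p w' h hc
    rw [cons_add] at h
    obtain ⟨a1, a2, e, rfl, h2⟩ := refines_cons.1 h
    obtain ⟨e1, e2, e3, -⟩ := split_le y p a1 a2 e
    have h3 : a1 - y ≠ 0 := by
      intro h0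
      exact hc a1 (tsub_eq_zero_iff_le.1 h0) (mem_cons_self _ _)
    rw [e3] at h2
    have h4 := ih h2 fun c hc' hm => hc c (hc'.trans (Multiset.sub_le_self _ _)) (mem_cons_of_mem hm)
    rw [card_sub e2] at h4
    have h5 := card_pos.2 h3
    have h6 := card_le_card e2
    rw [card_cons]
    omega

theorem exists_of_le_map {ι : Type} [DecidableEq ι] (u : ι → ℕ) {c : Multiset ℕ} :
    ∀ {T : Multiset ι}, c ≤ T.map u → ∃ T1 T2, T = T1 + T2 ∧ c = T1.map u := by
  induction c using Multiset.induction_on with
  | empty => intro T _; exact ⟨0, T, by simp, by simp⟩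
  | cons x c ih =>
    intro T h
    obtain ⟨i, hi, rfl⟩ := mem_map.1 (mem_of_le h (mem_cons_self _ _))
    rw [← cons_erase hi, map_cons, cons_le_cons_iff] at h
    obtain ⟨T1, T2, e1, e2⟩ := ih h
    exact ⟨i ::ₘ T1, T2, by rw [cons_add, ← e1, cons_erase hi], by rw [map_cons, e2]⟩

section states

variable {ι : Type} [DecidableEq ι] {l₀ : Multiset ℕ} {u : ι → ℕ}

/-- The order between states. -/
theorem order_states (H1 : ∀ i a b, SubSum l₀ a → SubSum l₀ b → u i + a ≠ b)
    (H2 : ∀ i j a b, SubSum l₀ a → SubSum l₀ b → u i + a = u j + b → i = j)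
    (s s' : ι → ℕ) (y' : Multiset ℕ) (T : Multiset ι) (hT : T.Nodup)
    (hs' : ∀ j ∈ T, SubSum l₀ (s' j)) : ∀ y : Multiset ℕ,
      (∀ c ≤ y, SubSum l₀ c.sum ∧ ∀ j ∈ T, SubSum l₀ (s j + c.sum)) →
      Refines (y + T.map fun j => u j + s j) (y' + T.map fun j => u j + s' j) →
      ∃ δ : ι → ℕ, (∀ j ∈ T, s' j = s j + δ j) ∧ Refines y (y' + T.map δ) := by
  induction T using Multiset.induction_on with
  | empty => intro y _ h; exact ⟨fun _ => 0, by simp, by simpa using h⟩
  | cons j T ih =>
    intro y hy h
    rw [nodup_cons] at hT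
    rw [map_cons (fun j => u j + s' j), add_cons] at h
    obtain ⟨a1, a2, e, e0, h2⟩ := refines_cons.1 h
    obtain ⟨e1, e2, e3, e4⟩ := split_le _ _ a1 a2 e
    have hj := hs' j (mem_cons_self _ _)
    have h3 : a1 - y ≠ 0 := by
      intro h0
      exact H1 j _ _ hj (hy a1 (tsub_eq_zero_iff_le.1 h0)).1 e0.symm
    rw [e3] at h2
    have h2' := h2
    rw [add_comm y'] at h2'
    have h4 := card_le_of_refines h2' fun c hc hm => by
        obtain ⟨i, hi, ei⟩ := mem_map.1 hm
        exact H1 i _ _ (hs' i (mem_cons_of_mem hi)) (hy c (hc.trans (Multiset.sub_le_self _ _))).1 ei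
    rw [card_sub e2, card_map, card_map, card_cons] at h4
    have h5 := card_pos.2 h3
    have h6 := card_le_card e2
    rw [card_map, card_cons] at h6
    obtain ⟨x, hx⟩ := card_eq_one.1 (show card (a1 - y) = 1 by omega)
    rw [hx] at e1 e2 h2
    obtain ⟨i, hi, rfl⟩ := mem_map.1 (singleton_le.1 e2)
    have e5 : u i + (s i + (a1 ∩ y).sum) = u j + s' j := by
      rw [← e0]
      conv_rhs => rw [e1]
      simp only [sum_add, sum_singleton]
      omega
    have e6 : i = j := H2 i j _ _ ((hy _ inter_le_right).2 i hi) hj e5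
    subst e6
    rw [map_cons, sub_singleton, erase_cons_head] at h2
    obtain ⟨δ, d1, d2⟩ := ih hT.2 (fun k hk => hs' k (mem_cons_of_mem hk)) (y - a1)
      (fun c hc => ⟨(hy c (hc.trans (Multiset.sub_le_self _ _))).1, fun k hk =>
        (hy c (hc.trans (Multiset.sub_le_self _ _))).2 k (mem_cons_of_mem hk)⟩) h2
    have e7 : T.map (Function.update δ i (a1 ∩ y).sum) = T.map δ :=
      Multiset.map_congr rfl fun k hk => Function.update_of_ne (by rintro rfl; exact hT.1 hk) _ _
    refine ⟨Function.update δ i (a1 ∩ y).sum, fun k hk => ?_, ?_⟩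
    · rcases mem_cons.1 hk with rfl | hk'
      · rw [Function.update_self]
        omega
      · rw [Function.update_of_ne (by rintro rfl; exact hT.1 hk')]
        exact d1 k hk'
    · rw [map_cons, Function.update_self, e7, add_cons]
      exact refines_cons.2 ⟨a1 ∩ y, y - a1, e4, rfl, d2⟩

/-- Every coarsening with enough marked parts is a state. -/
theorem states_surj (u : ι → ℕ) (z : Multiset ℕ) : ∀ (l : Multiset ℕ) (T : Multiset ι), T.Nodup →
    Refines (l + T.map u) z → ∃ y p, z = y + p ∧ card p ≤ card T ∧ (∀ c ≤ y, SubSum l c.sum) ∧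
      (card T ≤ card p → ∃ s : ι → ℕ, p = T.map (fun j => u j + s j) ∧ Refines l (y + T.map s)) := by
  induction z using Multiset.induction_on with
  | empty =>
    intro l T _ h
    rw [refines_zero] at h
    have h1 := congrArg card h
    simp only [card_add, card_map, card_zero] at h1
    have hl : l = 0 := card_eq_zero.1 (by omega)
    have hT : T = 0 := card_eq_zero.1 (by omega)
    subst hl hT
    refine ⟨0, 0, by simp, by simp, fun c hc => ⟨c, hc, rfl⟩, fun _ => ⟨fun _ => 0, by simp, ?_⟩⟩
    simpa using Refines.refl 0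
  | cons x z ih =>
    intro l T hT h
    obtain ⟨a1, a2, e, e0, h2⟩ := refines_cons.1 h
    obtain ⟨e1, e2, e3, e4⟩ := split_le _ _ a1 a2 e
    obtain ⟨T1, T2, rfl, e5⟩ := exists_of_le_map u e2
    rw [e3, e5, map_add, add_tsub_cancel_left] at h2
    rw [nodup_add] at hT
    obtain ⟨y, p, rfl, c1, c2, c3⟩ := ih _ T2 hT.2.1 h2
    by_cases h0 : T1 = 0
    · subst h0
      rw [map_zero] at e5
      rw [e5, add_zero] at e1
      refine ⟨x ::ₘ y, p, by simp, by simpa using c1, fun c hc => ?_, fun hc => ?_⟩
      · by_cases hx : x ∈ c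
        · obtain ⟨c', rfl⟩ := exists_cons_of_mem hx
          obtain ⟨A, hA, eA⟩ := c2 c' ((cons_le_cons_iff _).1 hc)
          refine ⟨a1 ∩ l + A, ?_, ?_⟩
          · conv_rhs => rw [e4]
            exact add_le_add_right hA _
          · rw [sum_add, ← e1, sum_cons, e0, eA]
        · obtain ⟨A, hA, eA⟩ := c2 c ((le_cons_of_notMem hx).1 hc)
          exact ⟨A, hA.trans (Multiset.sub_le_self _ _), eA⟩
      · obtain ⟨s, s1, s2⟩ := c3 (by simpa using hc)
        refine ⟨s, by simpa using s1, ?_⟩
        rw [zero_add, cons_add]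
        exact refines_cons.2 ⟨a1 ∩ l, l - a1, e4, by rw [← e1, e0], s2⟩
    · have h5 := card_pos.2 h0
      refine ⟨y, x ::ₘ p, by simp, by simp; omega, fun c hc => ?_, fun hc => ?_⟩
      · obtain ⟨A, hA, eA⟩ := c2 c hc
        exact ⟨A, hA.trans (Multiset.sub_le_self _ _), eA⟩
      · rw [card_add, card_cons] at hc
        obtain ⟨i, rfl⟩ := card_eq_one.1 (show card T1 = 1 by omega)
        obtain ⟨s, s1, s2⟩ := c3 (by simp at hc; omega)
        have hi : i ∉ T2 := fun hm => (disjoint_left.1 hT.2.2) (mem_singleton_self i) hm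
        have e7 : ∀ f : ι → ℕ → ℕ, T2.map (fun j => f j (Function.update s i (a1 ∩ l).sum j)) =
            T2.map fun j => f j (s j) := fun f =>
          Multiset.map_congr rfl fun k hk => by rw [Function.update_of_ne (by rintro rfl; exact hi hk)]
        refine ⟨Function.update s i (a1 ∩ l).sum, ?_, ?_⟩
        · rw [singleton_add, map_cons, Function.update_self, e7 fun j a => u j + a, ← s1, ← e0]
          congr 1
          conv_lhs => rw [e1, e5]
          simp only [sum_add, map_singleton, sum_singleton]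
          omega
        · rw [singleton_add, map_cons, Function.update_self, e7 fun _ a => a, add_cons]
          exact refines_cons.2 ⟨a1 ∩ l, l - a1, e4, rfl, s2⟩

end states

end Pool.Agent.Work.MP_84e666_co
end

-- merged part: Pool.Agent.Work.MP_84e666_co.H45Marked
section
/-! The Möbius function between partitions with marked parts. -/

namespace Pool.Agent.Work.MP_84e666_co

open Multiset

open Classical in
/-- The dual recursion of the Möbius function. -/
theorem upper {n : ℕ} {μ : n.Partition → n.Partition → ℤ} (hμ : IsMobius μ) (l r : n.Partition) :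
    ∑ z ∈ Finset.univ.filter (fun z : n.Partition =>
      Refines l.parts z.parts ∧ Refines z.parts r.parts), μ z r = if l = r then 1 else 0 := by
  let _ : PartialOrder n.Partition :=
    { le := fun a b => Refines a.parts b.parts
      le_refl := fun a => Refines.refl _
      le_trans := fun a b c => Refines.trans
      le_antisymm := fun a b h h' => parts_inj ((h.card_le fun x hx => b.parts_pos hx).2
        (h'.card_le fun x hx => a.parts_pos hx).1) }
  let _ : LocallyFiniteOrder n.Partition := Fintype.toLocallyFiniteOrder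
  have key : ∀ y x : n.Partition, x ≤ y → μ x y = IncidenceAlgebra.mu ℤ x y := by
    intro y
    induction y using WellFoundedLT.induction with
    | ind y ih =>
      intro x hxy
      by_cases hne : x = y
      · subst hne
        rw [hμ.1, IncidenceAlgebra.mu_self]
      · rw [hμ.2 x y hxy hne, IncidenceAlgebra.mu_eq_neg_sum_Ico_of_ne hne]
        congr 1
        refine Finset.sum_congr ?_ fun z hz => ?_
        · ext z
          simp only [Finset.mem_Ico, Finset.mem_filter, Finset.mem_univ, true_and, lt_iff_le_and_ne]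
          rfl
        · rw [Finset.mem_Ico] at hz
          exact ih z hz.2 x hz.1
  rw [← IncidenceAlgebra.sum_Icc_mu_left (𝕜 := ℤ) l r]
  refine Finset.sum_congr ?_ fun z hz => key r z (Finset.mem_Icc.1 hz).2
  ext z
  simp only [Finset.mem_Icc, Finset.mem_filter, Finset.mem_univ, true_and]
  rfl

theorem finite_lists (N : ℕ) : {w : List ℕ | (∀ a ∈ w, 0 < a) ∧ w.sum ≤ N}.Finite := by
  refine (Set.Finite.biUnion (Set.finite_le_nat N) fun k _ =>
    Set.finite_range (Composition.blocks : Composition k → List ℕ)).subset ?_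
  rintro w ⟨h1, h2⟩
  simp only [Set.mem_iUnion]
  exact ⟨w.sum, h2, ⟨w, fun {a} ha => h1 a ha, rfl⟩, rfl⟩

section marked

variable {ι : Type} [Fintype ι] [DecidableEq ι]

/-- Families of words with positive letters and bounded sums. -/
noncomputable def WW (t : ι → ℕ) : Finset (ι → List ℕ) :=
  Fintype.piFinset fun j => (finite_lists (t j)).toFinset

theorem mem_WW {t : ι → ℕ} {w : ι → List ℕ} :
    w ∈ WW t ↔ ∀ j, (∀ a ∈ w j, 0 < a) ∧ (w j).sum ≤ t j := by
  simp only [WW, Fintype.mem_piFinset, Set.Finite.mem_toFinset, Set.mem_ofPred_eq]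

theorem words_eq {m : Multiset ℕ} (hm : ∀ x ∈ m, 0 < x) {t' t : ι → ℕ} (ht : ∀ j, t' j ≤ t j) :
    words m t' = ((WW t).filter fun w =>
      ∑ j, (w j : Multiset ℕ) = m ∧ ∀ j, (w j).sum = t' j).card := by
  rw [words, ← Set.ncard_coe_finset]
  congr 1
  ext w
  simp only [Set.mem_ofPred_eq, Finset.coe_filter, mem_WW]
  refine ⟨fun h => ⟨fun j => ⟨fun a ha => hm a ?_, (h.2 j).trans_le (ht j)⟩, h⟩, fun h => h.2⟩
  rw [← h.1]
  exact Multiset.mem_sum.2 ⟨j, Finset.mem_univ _, ha⟩

omit [DecidableEq ι] in
theorem valid_of_refines {l₀ y : Multiset ℕ} {s : ι → ℕ}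
    (h : Refines l₀ (y + Finset.univ.val.map s)) (c : Multiset ℕ) (hc : c ≤ y) :
    SubSum l₀ c.sum ∧ ∀ j ∈ Finset.univ.val, SubSum l₀ (s j + c.sum) := by
  refine ⟨h.subSum (hc.trans (Multiset.le_add_right _ _)), fun j hj => ?_⟩
  have := h.subSum (c := c + {s j}) (add_le_add hc (singleton_le.2 (mem_map_of_mem s hj)))
  rwa [sum_add, sum_singleton, add_comm] at this

theorem state_inj {l₀ : Multiset ℕ} {u : ι → ℕ}
    (H1 : ∀ i a b, SubSum l₀ a → SubSum l₀ b → u i + a ≠ b)
    (H2 : ∀ i j a b, SubSum l₀ a → SubSum l₀ b → u i + a = u j + b → i = j)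
    {y y' : Multiset ℕ} {s s' : ι → ℕ} (h : Refines l₀ (y + Finset.univ.val.map s))
    (h' : Refines l₀ (y' + Finset.univ.val.map s'))
    (e : (y + Finset.univ.val.map fun j => u j + s j) =
      y' + Finset.univ.val.map fun j => u j + s' j) : y = y' ∧ s = s' := by
  obtain ⟨δ, d1, -⟩ := order_states H1 H2 s s' y' _ Finset.univ.nodup
    (fun j hj => by simpa using (valid_of_refines h' 0 (Multiset.zero_le _)).2 j hj) y
    (valid_of_refines h) (e ▸ Refines.refl _)
  obtain ⟨δ', d2, -⟩ := order_states H1 H2 s' s y _ Finset.univ.nodup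
    (fun j hj => by simpa using (valid_of_refines h 0 (Multiset.zero_le _)).2 j hj) y'
    (valid_of_refines h') (e ▸ Refines.refl _)
  have e1 : s = s' := funext fun j => by
    have := d1 j (Finset.mem_univ j)
    have := d2 j (Finset.mem_univ j)
    omega
  subst e1
  exact ⟨add_right_cancel e, rfl⟩

omit [Fintype ι] [DecidableEq ι] in
theorem refines_mark {y' : Multiset ℕ} (u : ι → ℕ) {δ : ι → ℕ} :
    ∀ T : Multiset ι, ∀ {y : Multiset ℕ}, Refines y (y' + T.map δ) →
      Refines (y + T.map fun j => u j) (y' + T.map fun j => u j + δ j) := by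
  intro T
  induction T using Multiset.induction_on with
  | empty => intro y h; simpa using h
  | cons j T ih =>
    intro y h
    rw [map_cons, add_cons] at h
    obtain ⟨a1, a2, rfl, e, h2⟩ := refines_cons.1 h
    rw [map_cons (fun j => u j + δ j), add_cons]
    refine refines_cons.2 ⟨u j ::ₘ a1, _, ?_, by rw [sum_cons, e], ih h2⟩
    simp only [map_cons, add_cons, cons_add, add_assoc]

omit [DecidableEq ι] in
theorem refines_words (w : ι → List ℕ) :
    Refines (∑ j, (w j : Multiset ℕ)) (Finset.univ.val.map fun j => (w j).sum) :=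
  ⟨Finset.univ.val.map fun j => (w j : Multiset ℕ), rfl, by simp⟩

omit [Fintype ι] [DecidableEq ι] in
theorem refines_zeros {a b : Multiset ℕ} (ha : ∀ x ∈ a, 0 < x) (T : Multiset ι) :
    Refines a (b + T.map fun _ => 0) ↔ Refines a b := by
  induction T using Multiset.induction_on with
  | empty => simp
  | cons j T ih => rw [map_cons, add_cons, refines_zero_cons ha, ih]

variable {n₀ : ℕ} (μ₀ : n₀.Partition → n₀.Partition → ℤ) (r₀ : n₀.Partition)

open Classical in
/-- The right-hand side of the formula. -/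
noncomputable def GG (l₀ : Multiset ℕ) (t : ι → ℕ) : ℤ :=
  ∑ y ∈ Finset.univ.filter (fun y : n₀.Partition => y.parts ≤ l₀ ∧ Refines y.parts r₀.parts),
    (-1) ^ (card l₀ - card y.parts) * words (l₀ - y.parts) t * μ₀ y r₀

open Classical in
/-- The index set of the double sum. -/
noncomputable def ZZ (l₀ : Multiset ℕ) (t : ι → ℕ) : Finset (n₀.Partition × (ι → List ℕ)) :=
  (Finset.univ ×ˢ WW t).filter fun p => Refines p.1.parts r₀.parts ∧
    Refines l₀ (p.1.parts + ∑ j, (p.2 j : Multiset ℕ) +
      Finset.univ.val.map fun j => t j - (p.2 j).sum)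

/-- The signed weight. -/
def sg (p : n₀.Partition × (ι → List ℕ)) : ℤ := (-1) ^ (∑ j, (p.2 j).length) * μ₀ p.1 r₀

/-- The partition attached to an index. -/
def PZ (u t : ι → ℕ) (p : n₀.Partition × (ι → List ℕ)) : Multiset ℕ :=
  p.1.parts + ∑ j, (p.2 j : Multiset ℕ) + Finset.univ.val.map fun j => u j + (t j - (p.2 j).sum)

theorem mem_ZZ {l₀ : Multiset ℕ} {t : ι → ℕ} {p : n₀.Partition × (ι → List ℕ)} :
    p ∈ ZZ r₀ l₀ t ↔ (∀ j, (∀ a ∈ p.2 j, 0 < a) ∧ (p.2 j).sum ≤ t j) ∧
      Refines p.1.parts r₀.parts ∧ Refines l₀ (p.1.parts + ∑ j, (p.2 j : Multiset ℕ) +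
        Finset.univ.val.map fun j => t j - (p.2 j).sum) := by
  simp only [ZZ, Finset.mem_filter, Finset.mem_product, Finset.mem_univ, true_and, mem_WW]

theorem fiber {l₀ : Multiset ℕ} {u : ι → ℕ}
    (H1 : ∀ i a b, SubSum l₀ a → SubSum l₀ b → u i + a ≠ b)
    (H2 : ∀ i j a b, SubSum l₀ a → SubSum l₀ b → u i + a = u j + b → i = j)
    {y : Multiset ℕ} (hy : ∀ x ∈ y, 0 < x) {s t : ι → ℕ} (hs : ∀ j, s j ≤ t j)
    (h : Refines l₀ (y + Finset.univ.val.map s)) :
    GG μ₀ r₀ y (fun j => t j - s j) = ∑ p ∈ (ZZ r₀ l₀ t).filter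
      (fun p => PZ u t p = y + Finset.univ.val.map fun j => u j + s j), sg μ₀ r₀ p := by
  classical
  have e1 : (ZZ r₀ l₀ t).filter (fun p => PZ u t p = y + Finset.univ.val.map fun j => u j + s j) =
      (Finset.univ ×ˢ WW t).filter fun p => (p.1.parts ≤ y ∧ Refines p.1.parts r₀.parts) ∧
        (∑ j, (p.2 j : Multiset ℕ) = y - p.1.parts ∧ ∀ j, (p.2 j).sum = t j - s j) := by
    ext p
    simp only [Finset.mem_filter, mem_ZZ, Finset.mem_product, Finset.mem_univ, true_and, mem_WW]
    constructor
    · rintro ⟨⟨h1, h2, h3⟩, h4⟩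
      obtain ⟨e1, e2⟩ := state_inj H1 H2 h3 h h4
      refine ⟨h1, ⟨e1 ▸ Multiset.le_add_right _ _, h2⟩, by rw [← e1, add_tsub_cancel_left],
        fun j => ?_⟩
      have := congrFun e2 j
      have := (h1 j).2
      omega
    · rintro ⟨h1, ⟨h2, h3⟩, h4, h5⟩
      have e1 : p.1.parts + ∑ j, (p.2 j : Multiset ℕ) = y := by rw [h4, add_tsub_cancel_of_le h2]
      have e2 : ∀ j, t j - (p.2 j).sum = s j := fun j => by
        have := h5 j
        have := hs j
        omega
      simp only [PZ, e1, e2]
      exact ⟨⟨h1, h3, h⟩, trivial⟩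
  rw [e1, Finset.sum_filter, Finset.sum_product, GG, Finset.sum_filter]
  refine Finset.sum_congr rfl fun y' _ => ?_
  split_ifs with h1
  · simp only [h1, true_and]
    rw [← Finset.sum_filter, words_eq (t := t)
      (fun x hx => hy x (mem_of_le (Multiset.sub_le_self _ _) hx)) (fun j => Nat.sub_le _ _),
      Finset.sum_congr rfl (g := fun _ => (-1) ^ (card y - card y'.parts) * μ₀ y' r₀)]
    · rw [Finset.sum_const, nsmul_eq_mul]
      ring
    · intro w hw
      have h2 := congrArg card (Finset.mem_filter.1 hw).2.1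
      rw [card_sub h1.1, Multiset.card_sum] at h2
      simp only [coe_card] at h2
      rw [sg, ← h2]
  · simp only [h1, false_and, if_false, Finset.sum_const_zero]

theorem map_univ_update (f : ι → ℕ) (j : ι) :
    Finset.univ.val.map f = f j ::ₘ (Finset.univ.val.erase j).map f := by
  rw [← map_cons, cons_erase (Finset.mem_univ j)]

theorem toggle_eq (t : ι → ℕ) (w : ι → List ℕ) (j : ι) (a : ℕ) (v : List ℕ) (hw : w j = a :: v)
    (ht : (w j).sum = t j) (y : Multiset ℕ) :
    (y + ∑ k, (w k : Multiset ℕ) + Finset.univ.val.map fun k => t k - (w k).sum) =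
      0 ::ₘ (y + ∑ k, (Function.update w j v k : Multiset ℕ) +
        Finset.univ.val.map fun k => t k - (Function.update w j v k).sum) ∧
      ∑ k, (w k).length = ∑ k, (Function.update w j v k).length + 1 := by
  have e1 : ∀ {M : Type} (f : ι → List ℕ → M), (Finset.univ.val.erase j).map
      (fun k => f k (Function.update w j v k)) = (Finset.univ.val.erase j).map fun k => f k (w k) :=
    fun f => Multiset.map_congr rfl fun k hk => by
      rw [Function.update_of_ne ((Finset.univ.nodup.mem_erase_iff).1 hk).1]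
  have e2 : ∀ {M : Type} [AddCommMonoid M] (f : ι → M),
      ∑ k, f k = f j + ((Finset.univ.val.erase j).map f).sum := fun f => by
    rw [← Finset.add_sum_erase _ f (Finset.mem_univ j)]
    rfl
  rw [hw] at ht
  simp only [List.sum_cons] at ht
  constructor
  · rw [map_univ_update _ j, map_univ_update (fun k => t k - (Function.update w j v k).sum) j,
      e2, e2 fun k => (Function.update w j v k : Multiset ℕ), e1 fun _ x => (x : Multiset ℕ),
      e1 fun k x => t k - x.sum]
    simp only [Function.update_self, hw, List.sum_cons]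
    rw [show t j - (a + v.sum) = 0 by omega, show t j - v.sum = a by omega, ← cons_coe]
    simp only [add_cons, cons_add]
  · rw [e2, e2 fun k => (Function.update w j v k).length, e1 fun _ x => x.length]
    simp only [Function.update_self, hw, List.length_cons]
    omega

theorem total_pos {l₀ : Multiset ℕ} (hl : ∀ x ∈ l₀, 0 < x) {t : ι → ℕ} {j : ι} (hj : 0 < t j) :
    ∑ p ∈ ZZ r₀ l₀ t, sg μ₀ r₀ p = 0 := by
  let g : n₀.Partition × (ι → List ℕ) → n₀.Partition × (ι → List ℕ) := fun p =>
    (p.1, Function.update p.2 j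
      (if (p.2 j).sum = t j then (p.2 j).tail else (t j - (p.2 j).sum) :: p.2 j))
  have key : ∀ p ∈ ZZ r₀ l₀ t, g p ∈ ZZ r₀ l₀ t ∧ sg μ₀ r₀ p + sg μ₀ r₀ (g p) = 0 ∧
      g p ≠ p ∧ g (g p) = p := by
    rintro ⟨y, w⟩ hp
    rw [mem_ZZ] at hp ⊢
    obtain ⟨h1, h2, h3⟩ := hp
    dsimp only at h1 h2 h3
    by_cases h : (w j).sum = t j
    · obtain ⟨a, v, hw⟩ : ∃ a v, w j = a :: v := by
        cases e : w j with
        | nil => rw [e] at h; simp at h; omega
        | cons a v => exact ⟨a, v, rfl⟩
      obtain ⟨e1, e2⟩ := toggle_eq t w j a v hw h y.parts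
      have e3 : g (y, w) = (y, Function.update w j v) := by
        simp only [g, h, if_true]
        rw [hw, List.tail_cons]
      have ha : 0 < a := (h1 j).1 a (by simp [hw])
      have hs : a + v.sum = t j := by simpa [hw] using h
      rw [e3]
      rw [e1, refines_zero_cons hl] at h3
      refine ⟨⟨fun k => ?_, h2, h3⟩, ?_, ?_, ?_⟩
      · by_cases hk : k = j
        · subst hk
          simp only [Function.update_self]
          exact ⟨fun b hb => (h1 k).1 b (by simp [hw, hb]), by omega⟩
        · simp only [Function.update_of_ne hk]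
          exact h1 k
      · simp only [sg, e2, pow_succ]
        ring
      · intro e
        have := congrArg (fun p => (p.2 j).length) e
        simp [hw] at this
      · simp only [g, Function.update_self, Function.update_idem]
        rw [if_neg (by omega), show t j - v.sum = a by omega, ← hw, Function.update_eq_self]
    · have e3 : g (y, w) = (y, Function.update w j ((t j - (w j).sum) :: w j)) := by
        simp only [g, h, if_false]
      have hle := (h1 j).2
      obtain ⟨e1, e2⟩ := toggle_eq t (Function.update w j ((t j - (w j).sum) :: w j)) j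
        (t j - (w j).sum) (w j) (by simp) (by simp; omega) y.parts
      rw [Function.update_idem, Function.update_eq_self] at e1 e2
      rw [e3]
      refine ⟨⟨fun k => ?_, h2, ?_⟩, ?_, ?_, ?_⟩
      · by_cases hk : k = j
        · subst hk
          simp only [Function.update_self, List.sum_cons, List.mem_cons]
          refine ⟨?_, by omega⟩
          rintro b (rfl | hb)
          · omega
          · exact (h1 k).1 b hb
        · simp only [Function.update_of_ne hk]
          exact h1 k
      · dsimp only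
        rwa [e1, refines_zero_cons hl]
      · simp only [sg, e2, pow_succ]
        ring
      · intro e
        have := congrArg (fun p => (p.2 j).length) e
        simp at this
      · simp only [g, Function.update_self, Function.update_idem]
        rw [if_pos (by simp; omega), List.tail_cons, Function.update_eq_self]
  exact Finset.sum_involution (fun p _ => g p) (fun p hp => (key p hp).2.1)
    (fun p hp _ => (key p hp).2.2.1) (fun p hp => (key p hp).1) fun p hp => (key p hp).2.2.2

theorem total_zero (hμ₀ : IsMobius μ₀) (l₀ : n₀.Partition) :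
    ∑ p ∈ ZZ r₀ l₀.parts (fun _ : ι => 0), sg μ₀ r₀ p = if l₀ = r₀ then 1 else 0 := by
  classical
  rw [← upper hμ₀ l₀ r₀]
  have nil : ∀ p ∈ ZZ r₀ l₀.parts (fun _ : ι => 0), p.2 = fun _ => [] := by
    intro p hp
    funext j
    obtain ⟨h1, h2⟩ := ((mem_ZZ r₀).1 hp).1 j
    cases e : p.2 j with
    | nil => rfl
    | cons a v =>
      rw [e] at h1 h2
      have := h1 a (by simp)
      simp only [List.sum_cons] at h2
      omega
  refine Finset.sum_bij (fun p _ => p.1) (fun p hp => ?_) (fun p hp q hq e => ?_)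
    (fun z hz => ?_) fun p hp => ?_
  · obtain ⟨-, h2, h3⟩ := (mem_ZZ r₀).1 hp
    rw [nil p hp] at h3
    simp only [Nat.zero_sub, refines_zeros fun x hx => l₀.parts_pos hx] at h3
    simp only [Finset.mem_filter, Finset.mem_univ, true_and]
    exact ⟨by simpa using h3, h2⟩
  · exact Prod.ext e (by rw [nil p hp, nil q hq])
  · simp only [Finset.mem_filter, Finset.mem_univ, true_and] at hz
    refine ⟨(z, fun _ => []), (mem_ZZ r₀).2 ⟨by simp, hz.2, ?_⟩, rfl⟩
    simp only [Nat.zero_sub, refines_zeros fun x hx => l₀.parts_pos hx]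
    simpa using hz.1
  · rw [sg, nil p hp]
    simp

theorem marked_aux (hμ₀ : IsMobius μ₀) {n : ℕ} {μ : n.Partition → n.Partition → ℤ}
    (hμ : IsMobius μ) (r : n.Partition) (N : ℕ) : ∀ (l : n.Partition) (l₀ : Multiset ℕ)
      (u t : ι → ℕ), card l₀ = N → l.parts = l₀ + Finset.univ.val.map u →
      r.parts = r₀.parts + Finset.univ.val.map (fun j => u j + t j) →
      (∀ i a b, SubSum l₀ a → SubSum l₀ b → u i + a ≠ b) →
      (∀ i j a b, SubSum l₀ a → SubSum l₀ b → u i + a = u j + b → i = j) →
      Refines l₀ (r₀.parts + Finset.univ.val.map t) → μ l r = GG μ₀ r₀ l₀ t := by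
  classical
  induction N using Nat.strong_induction_on with
  | _ N ih =>
  intro l l₀ u t hN hl hr H1 H2 hlr
  have hpos : ∀ x ∈ l₀, 0 < x := fun x hx => l.parts_pos (hl ▸ mem_add.2 (Or.inl hx))
  have hlr' : Refines l.parts r.parts := by
    rw [hl, hr]
    exact refines_mark u _ hlr
  have ht : ∀ j ∈ Finset.univ.val, SubSum l₀ (t j) := fun j hj => by
    simpa using (valid_of_refines hlr 0 (Multiset.zero_le _)).2 j hj
  set I := Finset.univ.filter (fun z : n.Partition =>
    Refines l.parts z.parts ∧ Refines z.parts r.parts) with hI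
  let F : n.Partition → ℤ := fun z =>
    ∑ p ∈ (ZZ r₀ l₀ t).filter (fun p => PZ u t p = z.parts), sg μ₀ r₀ p
  have hF : ∀ z ∈ I.erase l, μ z r = F z := by
    intro z hz
    obtain ⟨hne, hz⟩ := Finset.mem_erase.1 hz
    obtain ⟨-, h1, h2⟩ := Finset.mem_filter.1 hz
    obtain ⟨y, p, e, c1, c2, c3⟩ := states_surj u z.parts l₀ _ Finset.univ.nodup (hl ▸ h1)
    have h3 := h2
    rw [e, hr, add_comm r₀.parts] at h3
    have h4 := card_le_of_refines h3 fun c hc hm => by
      obtain ⟨i, hi, ei⟩ := mem_map.1 hm
      exact H1 i _ _ (ht i hi) (c2 c hc) ei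
    rw [card_map] at h4
    obtain ⟨s, rfl, s2⟩ := c3 h4
    rw [add_comm _ r₀.parts] at h3
    obtain ⟨δ, d1, d2⟩ := order_states H1 H2 s t r₀.parts _ Finset.univ.nodup ht y
      (valid_of_refines s2) h3
    have d3 : δ = fun j => t j - s j := funext fun j => by
      have := d1 j (Finset.mem_univ j)
      omega
    have hs : ∀ j, s j ≤ t j := fun j => by
      have := d1 j (Finset.mem_univ j)
      omega
    have hy : ∀ x ∈ y, 0 < x := fun x hx => z.parts_pos (e ▸ mem_add.2 (Or.inl hx))
    have hcard : card y < N := by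
      have h5 := h1.card_le fun x hx => z.parts_pos hx
      have h6 : ¬ card l.parts ≤ card z.parts := fun h => hne (parts_inj (h5.2 h)).symm
      rw [hl, e] at h6
      simp only [card_add, card_map] at h6
      omega
    have sub : ∀ a, SubSum y a → SubSum l₀ a ∧ ∀ j, SubSum l₀ (s j + a) := by
      rintro a ⟨c, hc, rfl⟩
      exact ⟨(valid_of_refines s2 c hc).1, fun j => (valid_of_refines s2 c hc).2 j (Finset.mem_univ j)⟩
    rw [ih _ hcard z y (fun j => u j + s j) δ rfl e ?_ ?_ ?_ d2, d3, fiber μ₀ r₀ H1 H2 hy hs s2]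
    · simp only [F, e]
    · rw [hr]
      congr 1
      exact Multiset.map_congr rfl fun j hj => by rw [d1 j hj, add_assoc]
    · intro i a b ha hb
      rw [add_assoc]
      exact H1 i _ _ ((sub a ha).2 i) (sub b hb).1
    · intro i j a b ha hb
      rw [add_assoc, add_assoc]
      exact H2 i j _ _ ((sub a ha).2 i) ((sub b hb).2 j)
  have hl0 : GG μ₀ r₀ l₀ t = F l := by
    have := fiber μ₀ r₀ H1 H2 hpos (s := fun _ => 0) (t := t) (fun _ => Nat.zero_le _)
      ((refines_zeros hpos _).2 (Refines.refl _))
    simp only [Nat.sub_zero, add_zero] at this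
    simp only [F, hl, this]
  have hmem : l ∈ I := Finset.mem_filter.2 ⟨Finset.mem_univ _, Refines.refl _, hlr'⟩
  have hsum : ∑ z ∈ I, F z = ∑ p ∈ ZZ r₀ l₀ t, sg μ₀ r₀ p := by
    rw [← Finset.sum_fiberwise_of_maps_to (t := I.image fun z => z.parts) (g := PZ u t),
      Finset.sum_image fun _ _ _ _ h => parts_inj h]
    intro p hp
    obtain ⟨h1, h2, h3⟩ := (mem_ZZ r₀).1 hp
    have h4 : Refines l.parts (PZ u t p) := by
      rw [hl]
      exact refines_mark u _ h3
    have h5 : Refines (PZ u t p) r.parts := by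
      have := refines_mark (fun j => u j + (t j - (p.2 j).sum)) _ (h2.add (refines_words p.2))
      have e : (fun j => u j + (t j - (p.2 j).sum) + (p.2 j).sum) = fun j => u j + t j :=
        funext fun j => by
          have := (h1 j).2
          omega
      rw [e] at this
      rw [hr]
      exact this
    have h6 : ∀ x ∈ PZ u t p, 0 < x := by
      intro x hx
      simp only [PZ, mem_add, Multiset.mem_sum, mem_map, mem_coe] at hx
      rcases hx with (hx | ⟨j, -, hx⟩) | ⟨j, hj, rfl⟩
      · exact p.1.parts_pos hx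
      · exact (h1 j).1 x hx
      · have := l.parts_pos (hl ▸ mem_add.2 (Or.inr (mem_map_of_mem u hj)))
        omega
    exact Finset.mem_image.2 ⟨⟨PZ u t p, fun hx => h6 _ hx, h4.sum_eq.symm.trans l.parts_sum⟩,
      Finset.mem_filter.2 ⟨Finset.mem_univ _, h4, h5⟩, rfl⟩
  have htot : ∑ p ∈ ZZ r₀ l₀ t, sg μ₀ r₀ p = if l = r then 1 else 0 := by
    by_cases h0 : ∃ j, 0 < t j
    · obtain ⟨j, hj⟩ := h0
      rw [total_pos μ₀ r₀ hpos hj, if_neg]
      rintro rfl
      have e := hl.symm.trans hr
      have := (state_inj H1 H2 (s := fun _ => 0) ((refines_zeros hpos _).2 (Refines.refl _)) hlr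
        (by simpa using e)).2
      have := congrFun this j
      omega
    · push Not at h0
      have e : t = fun _ => 0 := funext fun j => Nat.le_zero.1 (h0 j)
      subst e
      rw [refines_zeros hpos] at hlr
      have := total_zero (ι := ι) μ₀ r₀ hμ₀
        ⟨l₀, fun hx => hpos _ hx, hlr.sum_eq.trans r₀.parts_sum⟩
      rw [this]
      refine if_congr ⟨fun e => parts_inj ?_, fun e => parts_inj ?_⟩ rfl rfl
      · have e1 : l₀ = r₀.parts := congrArg Nat.Partition.parts e
        simp only [hl, hr, e1, add_zero]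
      · subst e
        have e1 := hl.symm.trans hr
        simp only [add_zero] at e1
        exact add_right_cancel e1
  have hup := upper hμ l r
  rw [← hI, ← Finset.add_sum_erase _ _ hmem, Finset.sum_congr rfl hF] at hup
  rw [← Finset.add_sum_erase _ _ hmem, htot] at hsum
  rw [hl0]
  exact add_right_cancel (hup.trans hsum.symm)

end marked

end Pool.Agent.Work.MP_84e666_co
end
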