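import Pool.Agent.Work.MP_84e666_co.H45Hard

namespace Pool.Agent.Work.MP_84e666_co.OldGapHard

open Pool.Agent.Work.MP_84e666_co

/-- The Möbius function of the refinement order is hard for differences of counting functions,
with the partitions written in unary: for all `f`, `g` in sharp-P there are polynomial-time maps
from strings `x` to a pair of partitions `l ≤ r` and to a positive integer `c x` such that
`μ l r = c x * (f x - g x)`. -/
theorem result (f g : List Bool → ℕ) (hf : IsSharpP f) (hg : IsSharpP g) :
    ∃ (lam rho : List Bool → List ℕ) (c : List Bool → ℕ),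
      N68a2faeb.IsPolyTime (fun x => unary (lam x)) ∧
      N68a2faeb.IsPolyTime (fun x => unary (rho x)) ∧ N68a2faeb.IsPolyTime c ∧
      ∀ x, 0 < c x ∧ ∃ (n : ℕ) (l r : n.Partition), l.parts = lam x ∧ r.parts = rho x ∧
        Refines l.parts r.parts ∧ ∀ μ : n.Partition → n.Partition → ℤ, IsMobius μ →
          μ l r = c x * ((f x : ℤ) - g x) :=
  Pack.gap_hard hf hg

end Pool.Agent.Work.MP_84e666_co.OldGapHard
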