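import Mathlib
import Pool.Prelude.Def_H_3587d628

namespace Pool.Agent.Work.MP_84e666_co

/-- `f` lies in the counting class sharp-P: `f x` is the number of witnesses of length `p |x|`
accepted by a polynomial-time verifier. -/
def IsSharpP (f : List Bool → ℕ) : Prop :=
  ∃ (p : Polynomial ℕ) (R : List Bool × List Bool → Bool), N68a2faeb.IsPolyTime R ∧
    ∀ x, f x = (Finset.univ.filter fun w : Fin (p.eval x.length) → Bool =>
      R (x, List.ofFn w) = true).card

/-- A list of numbers written in unary: each number `k` as `k` ones followed by a zero. -/
def unary (l : List ℕ) : List Bool := l.flatMap fun k => List.replicate k true ++ [false]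

end Pool.Agent.Work.MP_84e666_co
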