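import Pool.Agent.Work.MP_84e666_co.Defs
import Pool.Agent.Work.MP_84e666_co.Top

-- merged part: Pool.Agent.Work.MP_84e666_co.Fib
section
/-! The recurrence satisfied by `fibG`. -/

namespace Pool.Agent.Work.MP_84e666_co

theorem fibG_rec {j k c d : ℕ} (hj : 2 ≤ j) (hjk : j ≤ k) (hcd : c ≤ d) :
    fibG j k (c + 1) (d + 1) + (if 2 ≤ c ∧ d ≠ c + 1 then fibG j k c d else 0) =
      (if j = c + 1 ∧ k = d + 1 then 1 else 0) + (if 2 ≤ c then fibG j k c (d + 1) else 0) +
        (if c + 1 ≤ d then fibG j k (c + 1) d else 0) := by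
  obtain ⟨K, hK, hK'⟩ : ∃ K, (if j < k then k else k + 2) = K ∧
      ((j < k ∧ K = k) ∨ (j = k ∧ K = k + 2)) := ⟨_, rfl, by split_ifs <;> omega⟩
  have hA : ∀ x, x + 1 ≤ K → Nat.fib (max (x + 3 - K) 2) = 1 := by
    intro x hx
    rw [max_eq_right (by omega)]
    rfl
  have hB : ∀ x, x + 1 ≤ K → Nat.fib (x + 1 - K) = 0 := by
    intro x hx
    rw [show x + 1 - K = 0 by omega]
    rfl
  have h1 : ∀ x, K ≤ x + 1 → Nat.fib (max (x + 1 + 3 - K) 2) =
      Nat.fib (max (x + 3 - K) 2) + Nat.fib (x + 1 + 1 - K) := by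
    intro x hx
    obtain ⟨y, hy⟩ : ∃ y, x + 1 = K + y := ⟨x + 1 - K, by omega⟩
    rw [max_eq_left (by omega), max_eq_left (by omega), show x + 1 + 3 - K = y + 1 + 2 by omega,
      show x + 3 - K = y + 1 + 1 by omega, show x + 1 + 1 - K = y + 1 by omega, Nat.fib_add_two,
      add_comm]
  have h2 : ∀ x, K ≤ x + 1 → Nat.fib (max (x + 3 - K) 2) =
      Nat.fib (x + 1 + 1 - K) + Nat.fib (x + 1 - K) := by
    intro x hx
    obtain ⟨y, hy⟩ : ∃ y, x + 1 = K + y := ⟨x + 1 - K, by omega⟩
    rw [max_eq_left (by omega), show x + 3 - K = y + 2 by omega,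
      show x + 1 + 1 - K = y + 1 by omega, show x + 1 - K = y by omega, Nat.fib_add_two, add_comm]
  have e : ∀ c d, (c = j ∧ d = k ∧ fibG j k c d = 1) ∨ ((c < j ∨ d < k) ∧ fibG j k c d = 0) ∨
      (j ≤ c ∧ k ≤ d ∧ (j < c ∨ k < d) ∧
        ((c < d ∧ fibG j k c d = Nat.fib (max (c + 3 - K) 2)) ∨
          (d ≤ c ∧ fibG j k c d = Nat.fib (c + 1 - K)))) := by
    intro c d
    unfold fibG
    rw [hK]
    split_ifs <;> omega
  have e1 := e (c + 1) (d + 1)
  have e2 := e c d
  have e3 := e c (d + 1)
  have e4 := e (c + 1) d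
  have f : (c + 2 ≤ K ∧ Nat.fib (max (c + 3 - K) 2) = 1 ∧ Nat.fib (max (c + 1 + 3 - K) 2) = 1 ∧
      Nat.fib (c + 1 - K) = 0 ∧ Nat.fib (c + 1 + 1 - K) = 0) ∨
      (K ≤ c + 1 ∧ (c + 1 ≤ K → Nat.fib (c + 1 - K) = 0 ∧ Nat.fib (max (c + 3 - K) 2) = 1) ∧
        Nat.fib (max (c + 1 + 3 - K) 2) = Nat.fib (max (c + 3 - K) 2) + Nat.fib (c + 1 + 1 - K) ∧
        Nat.fib (max (c + 3 - K) 2) = Nat.fib (c + 1 + 1 - K) + Nat.fib (c + 1 - K)) := by
    rcases le_or_gt (c + 2) K with h | h
    · exact Or.inl ⟨h, hA c (by omega), hA (c + 1) h, hB c (by omega), hB (c + 1) h⟩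
    · exact Or.inr ⟨by omega, fun h' => ⟨hB c h', hA c h'⟩, h1 c (by omega), h2 c (by omega)⟩
  generalize Nat.fib (max (c + 3 - K) 2) = A0 at e2 e3 f
  generalize Nat.fib (max (c + 1 + 3 - K) 2) = A1 at e1 e4 f
  generalize Nat.fib (c + 1 - K) = B0 at e2 e3 f
  generalize Nat.fib (c + 1 + 1 - K) = B1 at e1 e4 f
  generalize fibG j k (c + 1) (d + 1) = T1 at e1 ⊢
  generalize fibG j k c d = T2 at e2 ⊢
  generalize fibG j k c (d + 1) = T3 at e3 ⊢
  generalize fibG j k (c + 1) d = T4 at e4 ⊢
  clear hA hB h1 h2 hK e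
  grind (splits := 30)

end Pool.Agent.Work.MP_84e666_co
end

-- merged part: Pool.Agent.Work.MP_84e666_co.Small
section
/-! Closed formulas when the lower partition has one or two parts larger than 1. -/

namespace Pool.Agent.Work.MP_84e666_co

open Multiset

def mk (n : ℕ) (m : Multiset ℕ) : Multiset ℕ := m + replicate (n - m.sum) 1

theorem big_two {s : Multiset ℕ} : ∀ x ∈ big s, 2 ≤ x := fun _ hx => (mem_filter.1 hx).2

theorem big_mk {n : ℕ} {m : Multiset ℕ} (h : ∀ x ∈ m, 2 ≤ x) : big (mk n m) = m := by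
  have : big m = m := filter_eq_self.2 h
  simp [mk, this]

theorem mk_mem {n : ℕ} {m : Multiset ℕ} (h : ∀ x ∈ m, 2 ≤ x) (hn : m.sum ≤ n) : mk n m ∈ PP n := by
  refine mem_PP.2 ⟨fun x hx => ?_, ?_⟩
  · rcases mem_add.1 hx with hx | hx
    · have := h x hx
      omega
    · rw [eq_of_mem_replicate hx]
      omega
  · simp only [mk, sum_add, sum_replicate, smul_eq_mul, mul_one]
    omega

theorem mk_big {n : ℕ} {s : Multiset ℕ} (hs : s ∈ PP n) : mk n (big s) = s ∧ (big s).sum ≤ n := by
  obtain ⟨h1, h2⟩ := mem_PP.1 hs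
  have e := eq_big_add h1
  have e2 := congrArg Multiset.sum e
  simp only [sum_add, sum_replicate, smul_eq_mul, mul_one] at e2
  refine ⟨?_, by omega⟩
  conv_rhs => rw [e]
  rw [mk, show n - (big s).sum = count 1 s by omega]

theorem card_mk {n : ℕ} {m : Multiset ℕ} : card (mk n m) = card m + (n - m.sum) := by
  simp [mk]

theorem Refines.bigsum {s t : Multiset ℕ} (h : Refines s t) : (big s).sum ≤ (big t).sum := by
  have e : ∀ s : Multiset ℕ, (s.map fun x => if 2 ≤ x then x else 0).sum = (big s).sum := by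
    intro s
    induction s using Multiset.induction_on with
    | empty => simp
    | cons x s ih =>
      rw [map_cons, sum_cons, ih, big_cons]
      split_ifs <;> simp
  rw [← e, ← e]
  refine h.potential _ (by simp) fun x y => ?_
  split_ifs <;> omega

theorem refines_one {n e : ℕ} {s : Multiset ℕ} (hs : s ∈ PP n) (he : 2 ≤ e) (hn : e ≤ n) :
    Refines s (mk n {e}) ↔ (big s).sum ≤ e := by
  constructor
  · intro h
    have := h.bigsum
    rwa [big_mk (by simpa using he), sum_singleton] at this
  · intro h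
    rw [← (mk_big hs).1, mk, mk, sum_singleton, singleton_add]
    refine refines_cons.2 ⟨big s + replicate (e - (big s).sum) 1, _, ?_, ?_, Refines.refl _⟩
    · rw [add_assoc, ← replicate_add]
      congr 2
      omega
    · simp only [sum_add, sum_replicate, smul_eq_mul, mul_one]
      omega

theorem tight_one {n e : ℕ} {s : Multiset ℕ} (hs : s ∈ PP n) (he : 2 ≤ e) (hn : e ≤ n) :
    Tight s (mk n {e}) ↔ (big s).sum = e ∨ (big s).sum + 1 = e := by
  have key : (∃ u, s = 1 ::ₘ 1 ::ₘ u ∧ Refines (2 ::ₘ u) (mk n {e})) ↔ (big s).sum + 2 ≤ e := by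
    have mem : ∀ u, s = 1 ::ₘ 1 ::ₘ u → 2 ::ₘ u ∈ PP n ∧ (big (2 ::ₘ u)).sum = (big s).sum + 2 := by
      rintro u rfl
      obtain ⟨h1, h2⟩ := mem_PP.1 hs
      refine ⟨mem_PP.2 ⟨fun x hx => ?_, ?_⟩, ?_⟩
      · rcases mem_cons.1 hx with rfl | hx
        · omega
        · exact h1 x (by simp [hx])
      · simp only [sum_cons] at h2 ⊢
        omega
      · simp [big_cons, add_comm]
    constructor
    · rintro ⟨u, h1, h2⟩
      rwa [refines_one (mem u h1).1 he hn, (mem u h1).2] at h2
    · intro h
      have h1 : s = 1 ::ₘ 1 ::ₘ (big s + replicate (n - (big s).sum - 2) 1) := by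
        conv_lhs => rw [← (mk_big hs).1, mk, show n - (big s).sum = n - (big s).sum - 2 + 1 + 1 by omega,
          replicate_succ, replicate_succ]
        simp
      exact ⟨_, h1, by rwa [refines_one (mem _ h1).1 he hn, (mem _ h1).2]⟩
  unfold Tight
  rw [key, refines_one hs he hn]
  omega

theorem pair_eq {a b c d : ℕ} :
    ({a, b} : Multiset ℕ) = {c, d} ↔ (a = c ∧ b = d) ∨ (a = d ∧ b = c) := by
  constructor
  · intro h
    have h1 := congrArg Multiset.sum h
    have h2 : a ∈ ({c, d} : Multiset ℕ) := by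
      rw [← h]
      simp
    simp only [insert_eq_cons, sum_cons, sum_singleton, mem_cons, mem_singleton] at h1 h2
    omega
  · rintro (⟨rfl, rfl⟩ | ⟨rfl, rfl⟩)
    · rfl
    · exact pair_comm _ _

theorem sum_map_succ (G : Multiset ℕ) : (G.map (· + 1)).sum = G.sum + card G := by
  simp [sum_map_add]

theorem raise_mk {n : ℕ} (G b : Multiset ℕ) (h : (G.map (· + 1) + b).sum ≤ n) :
    Raise (mk n (G + b)) G (mk n (G.map (· + 1) + b)) := by
  refine ⟨b + replicate (n - (G.map (· + 1) + b).sum) 1, ?_, by rw [mk, add_assoc]⟩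
  rw [sum_add, sum_map_succ] at h ⊢
  rw [mk, sum_add, show n - (G.sum + b.sum) = card G + (n - (G.sum + card G + b.sum)) by omega,
    replicate_add]
  abel

theorem tight_two {n c d x y : ℕ} (hx : 2 ≤ x) (hxy : x ≤ y) (hc : 2 ≤ c) (hcd : c ≤ d)
    (hn : c + d ≤ n) (hn' : x + y ≤ n) : Tight (mk n {x, y}) (mk n {c, d}) ↔
      (x = c ∨ x + 1 = c) ∧ (y = d ∨ y + 1 = d) ∧ ¬ (x + 1 = c ∧ y + 1 = d ∧ y = x + 1) := by
  have p1 : ∀ v ∈ ({x, y} : Multiset ℕ), 2 ≤ v := by simp; omega
  have p2 : ∀ v ∈ ({c, d} : Multiset ℕ), 2 ≤ v := by simp; omega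
  constructor
  · intro h
    obtain ⟨G, hG, h2⟩ := (h.struct (mem_PP.1 (mk_mem p1 (by simpa using hn'))).1
      (mem_PP.1 (mk_mem p2 (by simpa using hn))).1).2 (by rw [big_mk p1, big_mk p2]; simp)
    have hna := fun v hv => h.nonadj hG (v := v) hv
    obtain ⟨u, e1, e2⟩ := hG
    have e3 := congrArg big e1
    have e4 := congrArg big e2
    have b1 : big G = G := filter_eq_self.2 h2
    have b2 : big (G.map (· + 1)) = G.map (· + 1) := filter_eq_self.2 fun a ha => by
      obtain ⟨v, hv, rfl⟩ := mem_map.1 ha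
      have := h2 v hv
      omega
    rw [big_mk p1, big_add, big_add, big_ones, add_zero, b1] at e3
    rw [big_mk p2, big_add, b2] at e4
    generalize big u = b at e3 e4
    have e5 := congrArg card e3
    simp only [insert_eq_cons, card_cons, card_singleton, card_add] at e5
    rcases (show card G = 0 ∨ card G = 1 ∨ card G = 2 by omega) with h0 | h0 | h0
    · rw [card_eq_zero] at h0
      subst h0
      simp only [Multiset.map_zero, zero_add] at e3 e4
      have := pair_eq.1 (e3.trans e4.symm)
      omega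
    · obtain ⟨p, rfl⟩ := card_eq_one.1 h0
      obtain ⟨q, rfl⟩ := card_eq_one.1 (show card b = 1 by omega)
      have f1 := pair_eq.1 (show ({x, y} : Multiset ℕ) = {p, q} from e3)
      have f2 := pair_eq.1 (show ({c, d} : Multiset ℕ) = {p + 1, q} from e4)
      omega
    · rw [card_eq_zero.1 (show card b = 0 by omega), add_zero] at e3 e4
      subst e3
      have f2 := pair_eq.1 (show ({c, d} : Multiset ℕ) = {x + 1, y + 1} by simpa using e4)
      have f3 := hna x (by simp)
      simp only [insert_eq_cons, mem_cons, mem_singleton] at f3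
      omega
  · rintro ⟨rfl | rfl, rfl | rfl, h3⟩
    · exact tight_refl (mem_PP.1 (mk_mem p1 (by simpa using hn'))).1
    · have := (raise_mk (n := n) {y} {x} (by simp; omega)).tight (by simp; omega) (by simp)
      rwa [pair_comm x y, pair_comm x (y + 1)]
    · exact (raise_mk (n := n) {x} {y} (by simp; omega)).tight (by simp; omega) (by simp)
    · have := (raise_mk (n := n) {x, y} 0 (by simp; omega)).tight p1 (by simp; omega)
      simpa using this

theorem sgn_congr {a b : ℕ} (h : a % 2 = b % 2) : (-1 : ℤ) ^ a = (-1) ^ b := by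
  rw [neg_one_pow_eq_pow_mod_two, h, ← neg_one_pow_eq_pow_mod_two]

theorem sgn_succ {a b : ℕ} (h : a % 2 = (b + 1) % 2) : (-1 : ℤ) ^ a = -(-1) ^ b := by
  rw [sgn_congr h, pow_succ]
  ring

section
open Classical
variable {n : ℕ} {l : Multiset ℕ} (hl : l ∈ PP n) {ν : Multiset ℕ → ℤ}
  (hν : ∀ t ∈ PP n, ∑ s ∈ (PP n).filter (fun s => Tight s t), ν s = if l = t then 1 else 0)
include hl hν

theorem nu_zero {t : Multiset ℕ} (ht : t ∈ PP n) (hb : card (big l) < card (big t)) : ν t = 0 := by
  rw [nu_top hl hν ht hb.le, cnt_eq_zero hb.ne]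
  simp

omit hl in
theorem level_sum {e : ℕ} (he : 1 ≤ e) (hn : e + 1 ≤ n) :
    ∑ s ∈ (PP n).filter (fun s => (big s).sum = e + 1), ν s +
      ∑ s ∈ (PP n).filter (fun s => (big s).sum = e), ν s = if l = mk n {e + 1} then 1 else 0 := by
  rw [← hν _ (mk_mem (by simp; omega) (by simpa using hn)), ← Finset.sum_union]
  · refine Finset.sum_congr ?_ fun _ _ => rfl
    ext s
    simp only [Finset.mem_union, Finset.mem_filter, ← and_or_left]
    refine and_congr_right fun hs => ?_
    rw [tight_one hs (by omega) hn]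
    omega
  · rw [Finset.disjoint_left]
    intro s h1 h2
    have := (Finset.mem_filter.1 h1).2
    have := (Finset.mem_filter.1 h2).2
    omega

omit hl hν in
theorem level_one : ∑ s ∈ (PP n).filter (fun s => (big s).sum = 1), ν s = 0 := by
  refine Finset.sum_eq_zero fun s hs => ?_
  exfalso
  have h1 := (Finset.mem_filter.1 hs).2
  obtain ⟨x, hx⟩ : ∃ x, x ∈ big s := exists_mem_of_ne_zero fun e => by simp [e] at h1
  have h2 := big_two x hx
  have h3 := single_le_sum (fun _ _ => Nat.zero_le _) x hx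
  omega

theorem level_split {e : ℕ} (he : 2 ≤ e) (hn : e ≤ n) (hb : card (big l) ≤ 2) :
    ∑ s ∈ (PP n).filter (fun s => (big s).sum = e), ν s =
      ν (mk n {e}) + ∑ c ∈ Finset.Icc 2 (e / 2), ν (mk n {c, e - c}) := by
  have h1 : mk n {e} ∉ (Finset.Icc 2 (e / 2)).image fun c => mk n {c, e - c} := by
    intro h
    obtain ⟨c, hc, h1⟩ := Finset.mem_image.1 h
    rw [Finset.mem_Icc] at hc
    have h2 : card (big (mk n {c, e - c})) = card (big (mk n {e})) := by rw [h1]
    rw [big_mk (by simp; omega), big_mk (by simpa using he)] at h2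
    simp at h2
  rw [← Finset.sum_image (f := ν) (g := fun c => mk n {c, e - c}), ← Finset.sum_insert h1]
  · symm
    refine Finset.sum_subset ?_ ?_
    · intro s hs
      rcases Finset.mem_insert.1 hs with rfl | hs
      · refine Finset.mem_filter.2 ⟨mk_mem (by simpa using he) (by simpa using hn), ?_⟩
        rw [big_mk (by simpa using he), sum_singleton]
      · obtain ⟨c, hc, rfl⟩ := Finset.mem_image.1 hs
        rw [Finset.mem_Icc] at hc
        refine Finset.mem_filter.2 ⟨mk_mem (by simp; omega) (by simp; omega), ?_⟩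
        rw [big_mk (by simp; omega)]
        simp
        omega
    · intro s hs hs'
      obtain ⟨h2, h3⟩ := Finset.mem_filter.1 hs
      refine nu_zero hl hν h2 ?_
      by_contra hc
      apply hs'
      rw [← (mk_big h2).1]
      rcases (show card (big s) = 0 ∨ card (big s) = 1 ∨ card (big s) = 2 by omega) with h0 | h0 | h0
      · rw [card_eq_zero.1 h0, sum_zero] at h3
        omega
      · obtain ⟨x, hx⟩ := card_eq_one.1 h0
        rw [hx, sum_singleton] at h3
        rw [hx, h3]
        exact Finset.mem_insert_self _ _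
      · obtain ⟨x, y, hx⟩ := card_eq_two.1 h0
        have h4 := big_two (s := s)
        rw [hx] at h3 h4 ⊢
        simp only [insert_eq_cons, sum_cons, sum_singleton, mem_cons, mem_singleton,
          forall_eq_or_imp, forall_eq] at h3 h4
        refine Finset.mem_insert_of_mem (Finset.mem_image.2 ⟨min x y, Finset.mem_Icc.2 (by omega), ?_⟩)
        congr 1
        exact pair_eq.2 (by omega)
  · intro c hc c' hc' h
    rw [Finset.coe_Icc, Set.mem_Icc] at hc hc'
    have h2 := congrArg big h
    simp only at h2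
    rw [big_mk (by simp; omega), big_mk (by simp; omega)] at h2
    have := pair_eq.1 h2
    omega

theorem nu_hook {k : ℕ} (hk : big l = {k}) {e : ℕ} (he : 2 ≤ e) (hn : e ≤ n) :
    ν (mk n {e}) = if k ≤ e then (-1) ^ (e + k) else 0 := by
  have hk2 : 2 ≤ k := big_two (s := l) k (by simp [hk])
  have h1 : ∀ e, 2 ≤ e → e ≤ n →
      ∑ s ∈ (PP n).filter (fun s => (big s).sum = e), ν s = ν (mk n {e}) := by
    intro e he hn
    rw [level_split hl hν he hn (by simp [hk]), Finset.sum_eq_zero, add_zero]
    intro c hc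
    rw [Finset.mem_Icc] at hc
    refine nu_zero hl hν (mk_mem (by simp; omega) (by simp; omega)) ?_
    rw [big_mk (by simp; omega), hk]
    simp
  have h2 : ∀ e, 1 ≤ e → e ≤ n → ∑ s ∈ (PP n).filter (fun s => (big s).sum = e), ν s =
      if k ≤ e then (-1) ^ (e + k) else 0 := by
    intro e he
    induction e, he using Nat.le_induction with
    | base =>
      intro _
      rw [level_one, if_neg (by omega)]
    | succ e he ih =>
      intro hn
      have h3 := level_sum hν he hn
      rw [ih (by omega)] at h3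
      have h4 : l = mk n {e + 1} ↔ k = e + 1 := by
        constructor
        · intro h
          rw [h, big_mk (by simp; omega)] at hk
          exact (singleton_inj.1 hk).symm
        · intro h
          rw [← (mk_big hl).1, hk, h]
      simp only [h4] at h3
      rw [eq_sub_of_add_eq h3]
      split_ifs with a b c <;> try omega
      · subst a
        rw [sgn_congr (b := 0) (by omega)]
        simp
      · rw [add_right_comm, pow_succ]
        ring
  rw [← h1 e he hn, h2 e (by omega) hn]

theorem nu_two {j k : ℕ} (hjk : j ≤ k) (hk : big l = {j, k}) (m : ℕ) :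
    ∀ c d, c + d = m → 2 ≤ c → c ≤ d → c + d ≤ n →
      ν (mk n {c, d}) = (-1) ^ (c + d + j + k) * fibG j k c d := by
  have hj2 : 2 ≤ j := big_two (s := l) j (by simp [hk])
  induction m using Nat.strong_induction_on with
  | _ m ih =>
    intro c d hm hc hcd hn
    obtain ⟨c, rfl⟩ : ∃ c', c = c' + 1 := ⟨c - 1, by omega⟩
    obtain ⟨d, rfl⟩ : ∃ d', d = d' + 1 := ⟨d - 1, by omega⟩
    have h1 := hν _ (mk_mem (m := {c + 1, d + 1}) (by simp; omega) (by simpa using hn))
    have h2 : ∑ s ∈ (PP n).filter (fun s => Tight s (mk n {c + 1, d + 1})), ν s =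
        ∑ p ∈ (({c, c + 1} : Finset ℕ) ×ˢ ({d, d + 1} : Finset ℕ)).filter
          (fun p => 2 ≤ p.1 ∧ p.1 ≤ p.2 ∧ ¬ (p.1 = c ∧ p.2 = d ∧ d = c + 1)), ν (mk n {p.1, p.2}) := by
      rw [← Finset.sum_image (f := ν) (g := fun p : ℕ × ℕ => mk n {p.1, p.2})]
      · symm
        refine Finset.sum_subset ?_ ?_
        · intro s hs
          obtain ⟨⟨x, y⟩, hp, rfl⟩ := Finset.mem_image.1 hs
          simp only [Finset.mem_filter, Finset.mem_product, Finset.mem_insert,
            Finset.mem_singleton] at hp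
          refine Finset.mem_filter.2 ⟨mk_mem (by simp; omega) (by simp; omega), ?_⟩
          rw [tight_two (by omega) (by omega) hc hcd hn (by omega)]
          omega
        · intro s hs hs'
          obtain ⟨h2, h3⟩ := Finset.mem_filter.1 hs
          refine nu_zero hl hν h2 ?_
          by_contra hcon
          apply hs'
          have h4 := (h3.struct (mem_PP.1 h2).1 (mem_PP.1 (mk_mem (m := {c + 1, d + 1})
            (by simp; omega) (by simpa using hn))).1).1
          rw [big_mk (by simp; omega)] at h4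
          rw [hk] at hcon
          obtain ⟨x, y, hx⟩ := card_eq_two.1 (show card (big s) = 2 by simp at h4 hcon; omega)
          have h5 := big_two (s := s)
          have h6 := mk_big h2
          have hx' : big s = {min x y, max x y} := hx.trans (pair_eq.2 (by omega))
          rw [hx'] at h5 h6
          simp only [insert_eq_cons, sum_cons, sum_singleton, mem_cons, mem_singleton,
            forall_eq_or_imp, forall_eq] at h5 h6
          rw [← h6.1] at h3 ⊢
          have h7 := (tight_two h5.1 (by omega) hc hcd hn h6.2).1 h3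
          refine Finset.mem_image.2 ⟨(min x y, max x y), ?_, rfl⟩
          simp only [Finset.mem_filter, Finset.mem_product, Finset.mem_insert, Finset.mem_singleton]
          omega
      · rintro ⟨x, y⟩ hp ⟨x', y'⟩ hp' h
        simp only [Finset.coe_filter, Set.mem_ofPred_eq] at hp hp'
        have h2 := congrArg big h
        simp only at h2
        rw [big_mk (by simp; omega), big_mk (by simp; omega)] at h2
        have := pair_eq.1 h2
        simp only [Prod.mk.injEq]
        omega
    have h4 : l = mk n {c + 1, d + 1} ↔ j = c + 1 ∧ k = d + 1 := by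
      constructor
      · intro h
        rw [h, big_mk (by simp; omega)] at hk
        have := pair_eq.1 hk
        omega
      · intro h
        rw [← (mk_big hl).1, hk, h.1, h.2]
    rw [h2, Finset.sum_filter, Finset.sum_product, Finset.sum_pair (by omega),
      Finset.sum_pair (by omega), Finset.sum_pair (by omega)] at h1
    simp only [h4] at h1
    have r := fibG_rec (c := c) (d := d) hj2 hjk (by omega)
    have r' := congrArg (Nat.cast : ℕ → ℤ) r
    push_cast at r'
    have i1 := ih _ (by omega) c d rfl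
    have i2 := ih _ (by omega) c (d + 1) rfl
    have i3 := ih _ (by omega) (c + 1) d rfl
    obtain ⟨ε, hε⟩ : ∃ ε : ℤ, ε = (-1) ^ (c + 1 + (d + 1) + j + k) := ⟨_, rfl⟩
    have s1 : (-1 : ℤ) ^ (c + d + j + k) = ε := by rw [hε]; exact sgn_congr (by omega)
    have s2 : (-1 : ℤ) ^ (c + (d + 1) + j + k) = -ε := by
      rw [hε]
      exact sgn_succ (by omega)
    have s3 : (-1 : ℤ) ^ (c + 1 + d + j + k) = -ε := by
      rw [hε]
      exact sgn_succ (by omega)
    have s4 : (if j = c + 1 ∧ k = d + 1 then (1 : ℤ) else 0) =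
        ε * (if j = c + 1 ∧ k = d + 1 then (1 : ℤ) else 0) := by
      split_ifs with h
      · rw [hε, sgn_congr (b := 0) (by omega)]
        simp
      · simp
    rw [s1] at i1
    rw [s2] at i2
    rw [s3] at i3
    rw [← hε]
    rw [s4, if_pos (show 2 ≤ c + 1 ∧ c + 1 ≤ d + 1 ∧ ¬ (c + 1 = c ∧ d + 1 = d ∧ d = c + 1) by omega)] at h1
    have t1 : (if 2 ≤ c ∧ c ≤ d ∧ ¬ (c = c ∧ d = d ∧ d = c + 1) then ν (mk n {c, d}) else 0) =
        ε * (if 2 ≤ c ∧ d ≠ c + 1 then (fibG j k c d : ℤ) else 0) := by
      by_cases h : 2 ≤ c ∧ d ≠ c + 1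
      · rw [if_pos h, if_pos (by omega), i1 h.1 (by omega) (by omega)]
      · rw [if_neg h, if_neg (by omega), mul_zero]
    have t2 : (if 2 ≤ c ∧ c ≤ d + 1 ∧ ¬ (c = c ∧ d + 1 = d ∧ d = c + 1) then ν (mk n {c, d + 1}) else 0) =
        -ε * (if 2 ≤ c then (fibG j k c (d + 1) : ℤ) else 0) := by
      by_cases h : 2 ≤ c
      · rw [if_pos h, if_pos (by omega), i2 h (by omega) (by omega)]
      · rw [if_neg h, if_neg (by omega), mul_zero]
    have t3 : (if 2 ≤ c + 1 ∧ c + 1 ≤ d ∧ ¬ (c + 1 = c ∧ d = d ∧ d = c + 1) then ν (mk n {c + 1, d}) else 0) =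
        -ε * (if c + 1 ≤ d then (fibG j k (c + 1) d : ℤ) else 0) := by
      by_cases h : c + 1 ≤ d
      · rw [if_pos h, if_pos (by omega), i3 hc h (by omega)]
      · rw [if_neg h, if_neg (by omega), mul_zero]
    simp only [true_and] at t1 t2 t3 h1
    rw [t1, t2, t3] at h1
    linear_combination h1 + ε * r'.symm

theorem nu_two_one {j k : ℕ} (hjk : j ≤ k) (hk : big l = {j, k}) {e : ℕ} (he : 2 ≤ e) (hn : e ≤ n) :
    ν (mk n {e}) = -(-1) ^ (e + j + k) * fibH j k e := by
  have h2 : ∀ e, 1 ≤ e → e ≤ n → ∑ s ∈ (PP n).filter (fun s => (big s).sum = e), ν s = 0 := by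
    intro e he
    induction e, he using Nat.le_induction with
    | base => exact fun _ => level_one
    | succ e he ih =>
      intro hn
      have h3 := level_sum hν he hn
      rw [ih (by omega), add_zero, if_neg] at h3
      · exact h3
      · intro h
        rw [h, big_mk (by simp; omega)] at hk
        simpa using congrArg card hk
  have h1 := level_split hl hν he hn (by simp [hk])
  rw [h2 e (by omega) hn] at h1
  rw [eq_neg_of_add_eq_zero_left h1.symm, fibH]
  push_cast
  rw [Finset.mul_sum, ← Finset.sum_neg_distrib]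
  refine Finset.sum_congr rfl fun c hc => ?_
  rw [Finset.mem_Icc] at hc
  rw [nu_two hl hν hjk hk _ c (e - c) rfl hc.1 (by omega) (by omega), show c + (e - c) = e by omega]
  ring

end

variable {n : ℕ} {μ : n.Partition → n.Partition → ℤ} (hμ : IsMobius μ) (l r : n.Partition)
  (hlr : Refines l.parts r.parts)
include hlr

theorem sgn_eq : (-1 : ℤ) ^ (card l.parts - card r.parts) =
    (-1) ^ (card (big l.parts) + (big l.parts).sum + card (big r.parts) + (big r.parts).sum) := by
  rw [neg_one_pow_sub (hlr.card_le fun x hx => r.parts_pos hx).1]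
  have h1 := mk_big (parts_mem l)
  have h2 := mk_big (parts_mem r)
  have h3 := congrArg card h1.1
  have h4 := congrArg card h2.1
  rw [card_mk] at h3 h4
  exact sgn_congr (by omega)

omit hlr in
theorem two_mem_iff : 2 ∈ r.parts ↔ 2 ∈ big r.parts := by simp [big]

omit hlr in
theorem unD_eq {m : Multiset ℕ} (h : big r.parts = 2 ::ₘ m) : unD r.parts = mk n m := by
  have h2 : 2 ∈ r.parts := (two_mem_iff r).2 (by simp [h])
  have h3 := big_unD h2
  rw [h, cons_inj_right] at h3
  rw [h3, (mk_big (unD_mem (parts_mem r) h2)).1]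

include hμ

theorem mu_hook {k e : ℕ} (hk : big l.parts = {k})
    (he : big r.parts = {e} ∨ big r.parts = {2, e}) :
    μ l r = (-1) ^ (card l.parts - card r.parts) := by
  obtain ⟨ν, h1, h2⟩ := exists_nu hμ l
  have hk2 : 2 ≤ k := big_two (s := l.parts) k (by simp [hk])
  have he2 : 2 ≤ e := big_two (s := r.parts) e (by rcases he with h | h <;> simp [h])
  have hr := mk_big (parts_mem r)
  rcases he with he | he
  · have h3 := hlr.bigsum
    rw [hk, he, sum_singleton, sum_singleton] at h3
    by_cases h4 : e = k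
    · have : l = r := parts_inj (by
        show l.parts = r.parts
        rw [← hr.1, ← (mk_big (parts_mem l)).1, he, hk, h4])
      subst this
      simp [hμ.1]
    · rw [he, sum_singleton] at hr
      rw [h1 r hlr, sgn_eq l r hlr, if_neg (by rw [two_mem_iff, he]; simp; omega), hk, he, ← hr.1,
        nu_hook (parts_mem l) h2 hk he2 hr.2, if_pos h3, sub_zero]
      exact sgn_congr (by simp; omega)
  · have h3 : k ≤ e := by
      by_contra hc
      have h4 := hlr.potential (· / k) (by simp) fun x y => Nat.div_add_div_le_add_div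
      rw [← hr.1, ← (mk_big (parts_mem l)).1, he, hk] at h4
      simp only [mk, Multiset.map_add, sum_add, map_singleton, sum_singleton, map_replicate,
        sum_replicate, insert_eq_cons, map_cons, sum_cons] at h4
      rw [Nat.div_self (by omega), Nat.div_eq_of_lt (show 1 < k by omega),
        Nat.div_eq_of_lt (show 2 < k by omega), Nat.div_eq_of_lt (show e < k by omega)] at h4
      simp at h4
    have h4 := hr.2
    rw [he] at h4
    simp only [insert_eq_cons, sum_cons, sum_singleton] at h4
    rw [h1 r hlr, sgn_eq l r hlr, if_pos (by rw [two_mem_iff, he]; simp), unD_eq r he,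
      nu_zero (parts_mem l) h2 (parts_mem r) (by rw [hk, he]; simp),
      nu_hook (parts_mem l) h2 hk he2 (by omega), if_pos h3, zero_sub, hk, he]
    exact (sgn_succ (by simp; omega)).symm

theorem mu_two {j k : ℕ} (hjk : j ≤ k) (hk : big l.parts = {j, k}) :
    (∀ e, big r.parts = {e} → μ l r = (-1) ^ (card l.parts - card r.parts) * fibH j k e) ∧
    (∀ c d, c ≤ d → big r.parts = {c, d} → μ l r = (-1) ^ (card l.parts - card r.parts) *
      (fibG j k c d + if c = 2 then fibH j k d else 0 : ℕ)) ∧
    (∀ c d, c ≤ d → big r.parts = {2, c, d} →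
      μ l r = (-1) ^ (card l.parts - card r.parts) * fibG j k c d) := by
  obtain ⟨ν, h1, h2⟩ := exists_nu hμ l
  have hj2 : 2 ≤ j := big_two (s := l.parts) j (by simp [hk])
  have hr := mk_big (parts_mem r)
  have hb := big_two (s := r.parts)
  have h3 := hlr.bigsum
  rw [h1 r hlr, sgn_eq l r hlr]
  refine ⟨fun e he => ?_, fun c d hcd he => ?_, fun c d hcd he => ?_⟩
  · rw [he] at hr hb h3
    rw [hk] at h3
    simp only [insert_eq_cons, sum_cons, sum_singleton, mem_singleton, forall_eq] at hr hb h3
    rw [if_neg (by rw [two_mem_iff, he]; simp; omega), hk, he, ← hr.1,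
      nu_two_one (parts_mem l) h2 hjk hk hb hr.2, sub_zero]
    congr 1
    exact (sgn_succ (by simp; omega)).symm
  · rw [he] at hr hb
    have h4 := hr.2
    simp only [insert_eq_cons, sum_cons, sum_singleton, mem_cons, mem_singleton,
      forall_eq_or_imp, forall_eq] at h4 hb
    have h5 := nu_two (parts_mem l) h2 hjk hk _ c d rfl hb.1 hcd h4
    rw [hr.1] at h5
    have h6 : (-1 : ℤ) ^ (card (big l.parts) + (big l.parts).sum + card (big r.parts) +
        (big r.parts).sum) = (-1) ^ (c + d + j + k) := by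
      rw [hk, he]
      exact sgn_congr (by simp; omega)
    rw [h5, h6]
    by_cases hc : c = 2
    · subst hc
      rw [if_pos (by rw [two_mem_iff, he]; simp), unD_eq r he,
        nu_two_one (parts_mem l) h2 hjk hk hb.2 (by omega), if_pos rfl,
        sgn_congr (a := d + j + k) (b := 2 + d + j + k) (by omega)]
      push_cast
      ring
    · rw [if_neg (by rw [two_mem_iff, he]; simp; omega), if_neg hc]
      simp
  · rw [he] at hr hb
    have h4 := hr.2
    simp only [insert_eq_cons, sum_cons, sum_singleton, mem_cons, mem_singleton,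
      forall_eq_or_imp, forall_eq] at h4 hb
    rw [if_pos (by rw [two_mem_iff, he]; simp), unD_eq r he,
      nu_zero (parts_mem l) h2 (parts_mem r) (by rw [hk, he]; simp),
      nu_two (parts_mem l) h2 hjk hk _ c d rfl hb.2.1 hcd (by omega), zero_sub, hk, he, ← neg_mul]
    congr 1
    exact (sgn_succ (by simp; omega)).symm

end Pool.Agent.Work.MP_84e666_co
end
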